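import Mathlib

set_option autoImplicit false

open Filter Topology Set

namespace Pool.Agent.D0H70.BF

variable {E G : Type*} [NormedAddCommGroup E] [NormedSpace ℝ E] [NormedAddCommGroup G]
  [NormedSpace ℝ G]

/-- Second order Taylor estimate. -/
theorem tay (P : E → G) (h1 : ContDiffAt ℝ 2 P 0) (h0 : P 0 = 0) (c : ℝ) (hc : 0 < c) :
    ∃ r > 0, ∀ q : E, ‖q‖ < r → HasFDerivAt P (fderiv ℝ P q) q ∧
      DifferentiableAt ℝ (fderiv ℝ P) q ∧
      ‖fderiv ℝ P q - fderiv ℝ P 0 - fderiv ℝ (fderiv ℝ P) 0 q‖ ≤ c * ‖q‖ ∧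
      ‖P q - fderiv ℝ P 0 q - (1 / 2 : ℝ) • fderiv ℝ (fderiv ℝ P) 0 q q‖ ≤ c * ‖q‖ ^ 2 := by
  have hsym : ∀ v w, fderiv ℝ (fderiv ℝ P) 0 v w = fderiv ℝ (fderiv ℝ P) 0 w v :=
    h1.isSymmSndFDerivAt (by simp)
  have hev : ∀ᶠ q in 𝓝 (0 : E), ContDiffAt ℝ 2 P q := h1.eventually (by simp)
  have hD : ContDiffAt ℝ 1 (fderiv ℝ P) 0 := h1.fderiv_right (m := 1) (by norm_num)
  have hDd : HasFDerivAt (fderiv ℝ P) (fderiv ℝ (fderiv ℝ P) 0) 0 :=
    (hD.differentiableAt (by norm_num)).hasFDerivAt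
  have h2 : ∀ᶠ q in 𝓝 (0 : E),
      ‖fderiv ℝ P q - fderiv ℝ P 0 - fderiv ℝ (fderiv ℝ P) 0 q‖ ≤ c * ‖q‖ := by
    have h3 := hDd.isLittleO.def hc
    filter_upwards [h3] with q hq
    simpa only [sub_zero] using hq
  obtain ⟨r, hr, hall⟩ := Metric.eventually_nhds_iff.mp (hev.and h2)
  refine ⟨r, hr, ?_⟩
  have hP : ∀ q : E, ‖q‖ < r → HasFDerivAt P (fderiv ℝ P q) q := by
    intro q hq
    have h3 := (@hall q (by rwa [dist_zero_right])).1
    exact (h3.differentiableAt (by norm_num)).hasFDerivAt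
  have hb : ∀ q : E, ‖q‖ < r →
      ‖fderiv ℝ P q - fderiv ℝ P 0 - fderiv ℝ (fderiv ℝ P) 0 q‖ ≤ c * ‖q‖ := by
    intro q hq
    exact (@hall q (by rwa [dist_zero_right])).2
  intro q hq
  refine ⟨hP q hq, ?_, hb q hq, ?_⟩
  · have h3 := (@hall q (by rwa [dist_zero_right])).1
    exact (h3.fderiv_right (m := 1) (by norm_num)).differentiableAt (by norm_num)
  set B := fderiv ℝ (fderiv ℝ P) 0 with hB
  have hR : ∀ z ∈ Metric.closedBall (0 : E) ‖q‖, HasFDerivWithinAt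
      (fun z => P z - fderiv ℝ P 0 z - (1 / 2 : ℝ) • B z z)
      (fderiv ℝ P z - fderiv ℝ P 0 - B z) (Metric.closedBall (0 : E) ‖q‖) z := by
    intro z hz
    have hz' : ‖z‖ < r := by
      rw [mem_closedBall_zero_iff] at hz
      exact hz.trans_lt hq
    apply HasFDerivAt.hasFDerivWithinAt
    have e1 := ((hP z hz').sub (fderiv ℝ P 0).hasFDerivAt).sub
      ((B.hasFDerivAt (x := z)).clm_apply (hasFDerivAt_id z) |>.const_smul (1 / 2 : ℝ))
    refine e1.congr_fderiv ?_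
    ext w
    simp only [ContinuousLinearMap.sub_apply, ContinuousLinearMap.smul_apply,
      ContinuousLinearMap.add_apply, ContinuousLinearMap.comp_apply, id,
      ContinuousLinearMap.flip_apply, ContinuousLinearMap.id_apply]
    rw [hsym w z, ← two_smul ℝ (B z w), smul_smul]
    norm_num
  have hbb : ∀ z ∈ Metric.closedBall (0 : E) ‖q‖,
      ‖fderiv ℝ P z - fderiv ℝ P 0 - B z‖ ≤ c * ‖q‖ := by
    intro z hz
    rw [mem_closedBall_zero_iff] at hz
    exact (hb z (hz.trans_lt hq)).trans (by gcongr)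
  have h4 := Convex.norm_image_sub_le_of_norm_hasFDerivWithin_le hR hbb
    (convex_closedBall (0 : E) ‖q‖) (x := 0) (y := q) (by simp) (by simp)
  simp only [sub_zero, map_zero, smul_zero, h0] at h4
  rw [pow_two, ← mul_assoc]
  exact h4

/-- Symmetry in the last two arguments. -/
theorem sym3 {V : Type*} [NormedAddCommGroup V] [NormedSpace ℝ V]
    (f : V × ℝ → ℝ) (P : V × ℝ → (V →L[ℝ] ℝ)) (h1 : ContDiffAt ℝ 2 P 0)
    (h2 : ∀ᶠ p in 𝓝 (0 : V × ℝ), HasFDerivAt (fun v => f (v, p.2)) (P p) p.1) (u v w : V) :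
    fderiv ℝ (fderiv ℝ P) 0 (u, 0) (v, 0) w = fderiv ℝ (fderiv ℝ P) 0 (u, 0) (w, 0) v := by
  have hev : ∀ᶠ q in 𝓝 (0 : V × ℝ), ContDiffAt ℝ 2 P q := h1.eventually (by simp)
  have hD : ContDiffAt ℝ 1 (fderiv ℝ P) 0 := h1.fderiv_right (m := 1) (by norm_num)
  have hDd : HasFDerivAt (fderiv ℝ P) (fderiv ℝ (fderiv ℝ P) 0) 0 :=
    (hD.differentiableAt (by norm_num)).hasFDerivAt
  have h3 : ∀ᶠ p in 𝓝 (0 : V × ℝ), fderiv ℝ P p (v, 0) w = fderiv ℝ P p (w, 0) v := by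
    filter_upwards [eventually_eventually_nhds.mpr h2, hev] with p hp hp2
    have e1 : HasFDerivAt (fun v => P (v, p.2)) ((fderiv ℝ P p).comp
        (ContinuousLinearMap.inl ℝ V ℝ)) p.1 := by
      have a1 : HasFDerivAt P (fderiv ℝ P p) (p.1, p.2) :=
        (hp2.differentiableAt (by norm_num)).hasFDerivAt
      have a2 : HasFDerivAt (fun v : V => (v, p.2)) (ContinuousLinearMap.inl ℝ V ℝ) p.1 :=
        hasFDerivAt_prodMk_left p.1 p.2
      exact a1.comp p.1 a2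
    have e2 : ∀ᶠ v in 𝓝 p.1, HasFDerivAt (fun v => f (v, p.2)) (P (v, p.2)) v := by
      have a3 : Tendsto (fun v : V => (v, p.2)) (𝓝 p.1) (𝓝 p) := by
        have : Continuous (fun v : V => (v, p.2)) := by fun_prop
        exact this.tendsto p.1
      exact a3.eventually hp
    have e3 := second_derivative_symmetric_of_eventually e2 e1 v w
    simpa using e3
  have h4 : HasFDerivAt (fun p => fderiv ℝ P p (v, 0) w - fderiv ℝ P p (w, 0) v)
      ((((fderiv ℝ (fderiv ℝ P) 0).flip (v, 0)).flip w) -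
        (((fderiv ℝ (fderiv ℝ P) 0).flip (w, 0)).flip v)) 0 := by
    have a1 := (hDd.clm_apply (hasFDerivAt_const ((v, 0) : V × ℝ) 0)).clm_apply
      (hasFDerivAt_const w (0 : V × ℝ))
    have a2 := (hDd.clm_apply (hasFDerivAt_const ((w, 0) : V × ℝ) 0)).clm_apply
      (hasFDerivAt_const v (0 : V × ℝ))
    refine (a1.sub a2).congr_fderiv ?_
    ext x
    · simp
    · simp
  have h5 : HasFDerivAt (fun p => fderiv ℝ P p (v, 0) w - fderiv ℝ P p (w, 0) v)
      (0 : V × ℝ →L[ℝ] ℝ) 0 := by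
    refine (hasFDerivAt_const (0 : ℝ) (0 : V × ℝ)).congr_of_eventuallyEq ?_
    filter_upwards [h3] with p hp
    rw [hp, sub_self]
  have h6 := h4.unique h5
  have h7 := congrArg (fun l : V × ℝ →L[ℝ] ℝ => l (u, 0)) h6
  simp only [ContinuousLinearMap.sub_apply, ContinuousLinearMap.flip_apply,
    ContinuousLinearMap.zero_apply] at h7
  linarith

end Pool.Agent.D0H70.BF
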