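import Pool.Agent.D0H95.BF.Stm
import Pool.Agent.D0H70.BF.Bu1

set_option autoImplicit false
set_option maxSynthPendingDepth 5

open Filter Topology Set

namespace Pool.Agent.D0H70.BF

open Pool.Agent.D0H95.BF

theorem tform {V : Type*} [NormedAddCommGroup V] [NormedSpace ℝ V]
    (B : V × ℝ →L[ℝ] V × ℝ →L[ℝ] (V →L[ℝ] ℝ)) (o e : V) (C : ℝ)
    (h12 : ∀ u v w, B (u, 0) (v, 0) w = B (v, 0) (u, 0) w)
    (h23 : ∀ u v w, B (u, 0) (v, 0) w = B (u, 0) (w, 0) v)
    (hoo : ∀ w, B (o, 0) (o, 0) w = 0) (hoee : B (o, 0) (e, 0) e = 2)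
    (hC : B (e, 0) (e, 0) e = C) (a b c d g h : ℝ) :
    B (a • o + b • e, 0) (c • o + d • e, 0) (g • o + h • e)
      = 2 * (a * d * h + b * c * h + b * d * g) + b * d * h * C := by
  have e1 : ∀ s t : ℝ, ((s • o + t • e, 0) : V × ℝ) = s • (o, 0) + t • (e, 0) := by
    intro s t
    ext <;> simp
  rw [e1, e1]
  simp only [map_add, map_smul, add_apply, smul_apply, smul_eq_mul]
  have v1 := hoo o
  have v2 := hoo e
  have v3 : B (o, 0) (e, 0) o = 0 := by rw [h23, hoo]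
  have v4 : B (e, 0) (o, 0) o = 0 := by rw [h12, v3]
  have v5 : B (e, 0) (o, 0) e = 2 := by rw [h12, hoee]
  have v6 : B (e, 0) (e, 0) o = 2 := by rw [h23, v5]
  rw [v1, v2, v3, v4, v5, v6, hC, hoee]
  ring

theorem est0 (K C0 C x y : ℝ) (hC0 : 0 ≤ C0) (hK : 12 + 5 * C0 ≤ K) (hC : |C| ≤ C0)
    (hx : x ∈ Icc (-1 : ℝ) 1) (hy : y ∈ Icc (-1 : ℝ) 1) :
    |(K * ((1 + (x - y) / K) ^ 2 - 1) + (2 * (K * (x + y)) * (1 + (x - y) / K)
      + (1 + (x - y) / K) ^ 2 * C / 2) * (1 / K)) - 4 * x| ≤ 1 ∧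
    |(K * ((1 + (x - y) / K) ^ 2 - 1) - (2 * (K * (x + y)) * (1 + (x - y) / K)
      + (1 + (x - y) / K) ^ 2 * C / 2) * (1 / K)) + 4 * y| ≤ 1 ∧
    |(4 * (1 + (x - y) / K) + 2 * (K * (x + y)) * (1 / K) ^ 2
      + (1 + (x - y) / K) * C * (1 / K) ^ 2) - 4| ≤ 1 := by
  obtain ⟨hx1, hx2⟩ := hx
  obtain ⟨hy1, hy2⟩ := hy
  have hK0 : 0 < K := by linarith
  obtain ⟨k, hk⟩ : ∃ k, k = 1 / K := ⟨_, rfl⟩
  have hk0 : 0 < k := by rw [hk]; positivity
  have hKk : K * k = 1 := by rw [hk]; field_simp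
  have hkk : (12 + 5 * C0) * k ≤ 1 := by
    rw [← hKk]; gcongr
  have hC0k : 0 ≤ C0 * k := by positivity
  have hk12 : k ≤ 1 / 12 := by nlinarith
  have hd : ∀ z : ℝ, z / K = z * k := by intro z; rw [hk]; ring
  rw [hd (x - y), ← hk]
  obtain ⟨u, hu⟩ : ∃ u, u = x - y := ⟨_, rfl⟩
  obtain ⟨p, hp⟩ : ∃ p, p = x + y := ⟨_, rfl⟩
  rw [← hu, ← hp]
  have hu2 : |u| ≤ 2 := by rw [hu, abs_le]; constructor <;> linarith
  have hp2 : |p| ≤ 2 := by rw [hp, abs_le]; constructor <;> linarith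
  have huk : |u * k| ≤ 1 / 6 := by
    rw [abs_mul, abs_of_pos hk0]
    nlinarith [abs_nonneg u]
  have hb : |1 + u * k| ≤ 7 / 6 := by
    have := abs_add_le 1 (u * k)
    rw [abs_one] at this
    linarith
  have hb2 : (1 + u * k) ^ 2 ≤ 2 := by
    rw [← sq_abs]
    nlinarith [abs_nonneg (1 + u * k)]
  have hCk : |C * k| ≤ C0 * k := by
    rw [abs_mul, abs_of_pos hk0]; gcongr
  have t1 : |u ^ 2 * k| ≤ 4 * k := by
    rw [abs_mul, abs_of_pos hk0, abs_pow]
    have : |u| ^ 2 ≤ 4 := by nlinarith [abs_nonneg u]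
    gcongr
  have t2 : |p * u * k| ≤ 1 * k := by
    rw [abs_mul, abs_of_pos hk0]
    have : |p * u| ≤ 1 := by
      have a1 : 0 ≤ (1 - x) * (1 + x) := mul_nonneg (by linarith) (by linarith)
      have a2 : 0 ≤ (1 - y) * (1 + y) := mul_nonneg (by linarith) (by linarith)
      have a3 := sq_nonneg x
      have a4 := sq_nonneg y
      rw [hp, hu, abs_le]; constructor <;> nlinarith
    gcongr
  have t3 : |(1 + u * k) ^ 2 * (C * k)| ≤ 2 * (C0 * k) := by
    rw [abs_mul, abs_of_nonneg (sq_nonneg _)]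
    exact mul_le_mul hb2 hCk (abs_nonneg _) (by norm_num)
  have t4 : |(1 + u * k) * (C * k)| ≤ 2 * (C0 * k) := by
    rw [abs_mul]
    exact mul_le_mul (hb.trans (by norm_num)) hCk (abs_nonneg _) (by norm_num)
  have t5 : |(1 + u * k) * (C * k) * k| ≤ 2 * (C0 * k) * (1 / 12) := by
    rw [abs_mul, abs_of_pos hk0]
    exact mul_le_mul t4 hk12 hk0.le (by positivity)
  have t6 : |p * k| ≤ 2 * k := by
    rw [abs_mul, abs_of_pos hk0]
    gcongr
  have t7 : |u * k| ≤ 2 * k := by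
    rw [abs_mul, abs_of_pos hk0]
    gcongr
  rw [abs_le] at t1 t2 t3 t5 t6 t7
  have key1 : K * ((1 + u * k) ^ 2 - 1) = 2 * u + u ^ 2 * k := by
    calc K * ((1 + u * k) ^ 2 - 1) = (K * k) * (2 * u + u ^ 2 * k) := by ring
      _ = _ := by rw [hKk, one_mul]
  have key2 : (2 * (K * p) * (1 + u * k) + (1 + u * k) ^ 2 * C / 2) * k
      = 2 * p + 2 * (p * u * k) + (1 + u * k) ^ 2 * (C * k) / 2 := by
    calc (2 * (K * p) * (1 + u * k) + (1 + u * k) ^ 2 * C / 2) * k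
        = (K * k) * (2 * p * (1 + u * k)) + (1 + u * k) ^ 2 * (C * k) / 2 := by ring
      _ = _ := by rw [hKk]; ring
  have key3 : 2 * (K * p) * k ^ 2 = 2 * (p * k) := by
    calc 2 * (K * p) * k ^ 2 = (K * k) * (2 * (p * k)) := by ring
      _ = _ := by rw [hKk, one_mul]
  have key4 : (1 + u * k) * C * k ^ 2 = (1 + u * k) * (C * k) * k := by ring
  refine ⟨?_, ?_, ?_⟩
  · rw [key1, key2, abs_le]
    constructor <;> linarith
  · rw [key1, key2, abs_le]
    constructor <;> linarith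
  · rw [key3, key4, abs_le]
    constructor <;> linarith

section gen

variable {V : Type*} [NormedAddCommGroup V] [NormedSpace ℝ V]

noncomputable def vv (o : V) (e : ℝ → V) (K x y t : ℝ) : V :=
  (K * (x + y)) • o + (1 + (x - y) / K) • e t

theorem vv_dx (o : V) (e : ℝ → V) (K x y t : ℝ) :
    HasDerivAt (fun x => vv o e K x y t) (K • o + (1 / K) • e t) x := by
  have h1 : HasDerivAt (fun x : ℝ => K * (x + y)) K x := by
    simpa using ((hasDerivAt_id x).add_const y).const_mul K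
  have h2 : HasDerivAt (fun x : ℝ => 1 + (x - y) / K) (1 / K) x := by
    simpa using (((hasDerivAt_id x).sub_const y).div_const K).const_add 1
  exact (h1.smul_const o).add (h2.smul_const (e t))

theorem vv_dy (o : V) (e : ℝ → V) (K x y t : ℝ) :
    HasDerivAt (fun y => vv o e K x y t) (K • o + (-(1 / K)) • e t) y := by
  have h1 : HasDerivAt (fun y : ℝ => K * (x + y)) K y := by
    simpa using ((hasDerivAt_id y).const_add x).const_mul K
  have h2 : HasDerivAt (fun y : ℝ => 1 + (x - y) / K) (-(1 / K)) y := by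
    have := (((hasDerivAt_id y).const_sub x).div_const K).const_add 1
    simpa [neg_div] using this
  exact (h1.smul_const o).add (h2.smul_const (e t))

theorem vv_dt (o : V) (e e' : ℝ → V) (he : ∀ t, HasDerivAt e (e' t) t) (K x y t : ℝ) :
    HasDerivAt (fun t => vv o e K x y t) ((1 + (x - y) / K) • e' t) t := by
  exact ((he t).const_smul (1 + (x - y) / K)).const_add _

theorem bu_gen (hsad : S_SAD) (o : V) (e e' : ℝ → V) (ho : ‖o‖ ≤ 1) (hen : ∀ t, ‖e t‖ ≤ 1)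
    (hde : ∀ t, HasDerivAt e (e' t) t) (hce : Continuous e) (hce' : Continuous e')
    (hper : ∀ t, e (t + 2 * Real.pi) = e t)
    (hspan : ∀ (Q : V →L[ℝ] ℝ) (t : ℝ), Q o = 0 → Q (e t) = 0 → Q (e' t) = 0 → Q = 0)
    (f : V × ℝ → ℝ) (P : V × ℝ → (V →L[ℝ] ℝ)) (h1 : ContDiffAt ℝ 2 P 0)
    (h2 : ∀ᶠ p in 𝓝 (0 : V × ℝ), HasFDerivAt (fun v => f (v, p.2)) (P p) p.1)
    (hP0 : P 0 = 0) (hL : ∀ v : V, fderiv ℝ P 0 (v, 0) = 0)
    (hs : ∀ g h t : ℝ, fderiv ℝ P 0 (0, 1) (g • o + h • e t) = - g)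
    (hoo : ∀ w : V, fderiv ℝ (fderiv ℝ P) 0 (o, 0) (o, 0) w = 0)
    (hoee : ∀ t, fderiv ℝ (fderiv ℝ P) 0 (o, 0) (e t, 0) (e t) = 2)
    (δ : ℝ) (hδ : 0 < δ) : ∃ (v : V) (s : ℝ), s ≠ 0 ∧ |s| < δ ∧ ‖v‖ < δ ∧ P (v, s) = 0 := by
  obtain ⟨L, hLdef⟩ : ∃ L, L = fderiv ℝ P 0 := ⟨_, rfl⟩
  obtain ⟨B, hBdef⟩ : ∃ B, B = fderiv ℝ (fderiv ℝ P) 0 := ⟨_, rfl⟩
  have h12 : ∀ u v w : V, B (u, 0) (v, 0) w = B (v, 0) (u, 0) w := by
    intro u v w
    have e1 := h1.isSymmSndFDerivAt (by simp) (u, 0) (v, 0)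
    rw [hBdef, e1]
  have h23 : ∀ u v w : V, B (u, 0) (v, 0) w = B (u, 0) (w, 0) v := by
    intro u v w
    rw [hBdef]
    exact sym3 f P h1 h2 u v w
  rw [← hLdef] at hL hs
  rw [← hBdef] at hoo hoee
  have hCb : ∀ t, |B (e t, 0) (e t, 0) (e t)| ≤ ‖B‖ := by
    intro t
    have e1 : ‖((e t, 0) : V × ℝ)‖ ≤ 1 := by
      rw [Prod.norm_def]; simpa using hen t
    calc |B (e t, 0) (e t, 0) (e t)| = ‖B (e t, 0) (e t, 0) (e t)‖ := rfl
      _ ≤ ‖B (e t, 0) (e t, 0)‖ * ‖e t‖ := ContinuousLinearMap.le_opNorm _ _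
      _ ≤ (‖B (e t, 0)‖ * ‖((e t, 0) : V × ℝ)‖) * ‖e t‖ := by
          gcongr; exact ContinuousLinearMap.le_opNorm _ _
      _ ≤ ((‖B‖ * ‖((e t, 0) : V × ℝ)‖) * ‖((e t, 0) : V × ℝ)‖) * ‖e t‖ := by
          gcongr; exact ContinuousLinearMap.le_opNorm _ _
      _ ≤ ((‖B‖ * 1) * 1) * 1 := by
          gcongr; exact hen t
      _ = ‖B‖ := by ring
  have hB0 : 0 ≤ ‖B‖ := norm_nonneg _
  obtain ⟨K, hK⟩ : ∃ K, K = 12 + 5 * ‖B‖ := ⟨_, rfl⟩
  have hK12 : 12 ≤ K := by linarith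
  have hK0 : 0 < K := by linarith
  obtain ⟨r, hr, htay⟩ := tay P h1 hP0 (1 / (36 * K ^ 3)) (by positivity)
  rw [← hLdef, ← hBdef] at htay
  obtain ⟨r2, hr2, hf⟩ := Metric.eventually_nhds_iff.mp h2
  -- choice of ε
  obtain ⟨ε, hε, hε1, hεr, hεr2, hεδ, hεB⟩ : ∃ ε : ℝ, 0 < ε ∧ ε ≤ 1 ∧ 3 * K * ε < r ∧
      3 * K * ε < r2 ∧ 3 * K * ε < δ ∧ ε * (K * (6 * K + 1) * ‖B‖) ≤ 1 / 2 := by
    have t1 : Tendsto (fun ε : ℝ => 3 * K * ε) (𝓝 0) (𝓝 0) := by
      have : Continuous (fun ε : ℝ => 3 * K * ε) := by fun_prop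
      simpa using this.tendsto 0
    have t2 : Tendsto (fun ε : ℝ => ε * (K * (6 * K + 1) * ‖B‖)) (𝓝 0) (𝓝 0) := by
      have : Continuous (fun ε : ℝ => ε * (K * (6 * K + 1) * ‖B‖)) := by fun_prop
      simpa using this.tendsto 0
    have t3 : ∀ᶠ ε in 𝓝 (0 : ℝ), ε < 1 := eventually_lt_nhds (by norm_num)
    have t4 := ((t3.and ((t1.eventually_lt_const hr).and ((t1.eventually_lt_const hr2).and
      ((t1.eventually_lt_const hδ).and (t2.eventually_lt_const (by norm_num :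
        (0 : ℝ) < 1 / 2))))))).filter_mono (nhdsWithin_le_nhds (s := Ioi 0))
    obtain ⟨ε, hε, hε0⟩ := (t4.and self_mem_nhdsWithin).exists
    exact ⟨ε, hε0, hε.1.le, hε.2.1, hε.2.2.1, hε.2.2.2.1, hε.2.2.2.2.le⟩
  have hεne : ε ≠ 0 := hε.ne'
  -- bounds
  have hvn : ∀ x ∈ Icc (-1 : ℝ) 1, ∀ y ∈ Icc (-1 : ℝ) 1, ∀ t, ‖vv o e K x y t‖ ≤ 3 * K := by
    intro x hx y hy t
    rw [vv]
    refine (norm_add_le _ _).trans ?_
    rw [norm_smul, norm_smul, Real.norm_eq_abs, Real.norm_eq_abs]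
    have e0 : |K * (x + y)| ≤ 2 * K := by
      rw [abs_mul, abs_of_pos hK0]
      have : |x + y| ≤ 2 := by
        rw [abs_le]; constructor <;> linarith [hx.1, hx.2, hy.1, hy.2]
      nlinarith
    have e1 : |(x - y) / K| ≤ 2 := by
      rw [abs_div, abs_of_pos hK0, div_le_iff₀ hK0]
      have : |x - y| ≤ 2 := by
        rw [abs_le]; constructor <;> linarith [hx.1, hx.2, hy.1, hy.2]
      nlinarith
    have e2 := abs_add_le 1 ((x - y) / K)
    rw [abs_one] at e2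
    have e3 : |K * (x + y)| * ‖o‖ ≤ (2 * K) * 1 := by gcongr
    have e4 : |1 + (x - y) / K| * ‖e t‖ ≤ 3 * 1 := by
      gcongr
      · linarith
      · exact hen t
    linarith
  have hqn : ∀ x ∈ Icc (-1 : ℝ) 1, ∀ y ∈ Icc (-1 : ℝ) 1, ∀ t,
      ‖((ε • vv o e K x y t, ε ^ 2) : V × ℝ)‖ ≤ 3 * K * ε := by
    intro x hx y hy t
    rw [Prod.norm_def]
    apply max_le
    · rw [norm_smul, Real.norm_eq_abs, abs_of_pos hε]
      have := hvn x hx y hy t
      nlinarith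
    · rw [Real.norm_eq_abs, abs_of_pos (by positivity)]
      nlinarith
  have hXn : ∀ σ t : ℝ, |σ| ≤ 1 → ‖K • o + (σ * (1 / K)) • e t‖ ≤ 2 * K := by
    intro σ t hσ
    refine (norm_add_le _ _).trans ?_
    rw [norm_smul, norm_smul, Real.norm_eq_abs, Real.norm_eq_abs, abs_of_pos hK0, abs_mul,
      abs_of_pos (by positivity : 0 < 1 / K)]
    have e1 : 1 / K ≤ 1 := by rw [div_le_one hK0]; linarith
    have e2 : 0 < 1 / K := by positivity
    have e3 : K * ‖o‖ ≤ K * 1 := by gcongr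
    have e4 : |σ| * (1 / K) * ‖e t‖ ≤ 1 * 1 * 1 := by
      gcongr
      exact hen t
    linarith
  have hLv : ∀ (v : V) (s : ℝ), L (v, s) = s • L (0, 1) := by
    intro v s
    have e1 : ((v, s) : V × ℝ) = (v, 0) + s • (0, 1) := by ext <;> simp
    rw [e1, map_add, hL, map_smul, zero_add]
  -- estimate U1
  have U1 : ∀ x ∈ Icc (-1 : ℝ) 1, ∀ y ∈ Icc (-1 : ℝ) 1, ∀ t, ∀ h : V, ‖h‖ ≤ 2 * K →
      |P (ε • vv o e K x y t, ε ^ 2) h - ε ^ 2 * (L (0, 1) h +
        1 / 2 * B (vv o e K x y t, 0) (vv o e K x y t, 0) h)| ≤ ε ^ 2 := by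
    intro x hx y hy t h hh
    obtain ⟨v, hv⟩ : ∃ v, v = vv o e K x y t := ⟨_, rfl⟩
    have hq := hqn x hx y hy t
    have hvb := hvn x hx y hy t
    rw [← hv] at hq hvb ⊢
    have e1 := (htay (ε • v, ε ^ 2) (hq.trans_lt hεr)).2.2.2
    have e2 : P (ε • v, ε ^ 2) - ε ^ 2 • (L (0, 1) + (1 / 2 : ℝ) • B (v, 0) (v, 0)) =
        (P (ε • v, ε ^ 2) - L (ε • v, ε ^ 2) - (1 / 2 : ℝ) • B (ε • v, ε ^ 2) (ε • v, ε ^ 2))
          + (ε ^ 3 / 2) • (B (v, 0) (0, 1) + B (0, 1) (v, 0)) +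
            (ε ^ 4 / 2) • B (0, 1) (0, 1) := by
      have e3 : ((ε • v, ε ^ 2) : V × ℝ) = ε • (v, 0) + ε ^ 2 • (0, 1) := by
        ext <;> simp
      have e5 : L (ε • v, ε ^ 2) = ε ^ 2 • L (0, 1) := hLv _ _
      rw [e5, e3]
      simp only [map_add, map_smul, add_apply, smul_apply]
      ext w
      simp only [sub_apply, add_apply, smul_apply, smul_eq_mul]
      ring
    have n1 : ‖((v, 0) : V × ℝ)‖ ≤ 3 * K := by
      rw [Prod.norm_def]; simp only [norm_zero]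
      exact max_le hvb (by positivity)
    have n2 : ‖((0, 1) : V × ℝ)‖ ≤ 1 := by
      rw [Prod.norm_def]; simp
    have n3 : ‖B (v, 0) (0, 1)‖ ≤ ‖B‖ * (3 * K) * 1 := by
      refine (ContinuousLinearMap.le_opNorm₂ _ _ _).trans ?_
      gcongr
    have n4 : ‖B (0, 1) (v, 0)‖ ≤ ‖B‖ * 1 * (3 * K) := by
      refine (ContinuousLinearMap.le_opNorm₂ _ _ _).trans ?_
      gcongr
    have n5 : ‖B (0, 1) (0, 1)‖ ≤ ‖B‖ * 1 * 1 := by
      refine (ContinuousLinearMap.le_opNorm₂ _ _ _).trans ?_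
      gcongr
    have n6 : ‖P (ε • v, ε ^ 2) - ε ^ 2 • (L (0, 1) + (1 / 2 : ℝ) • B (v, 0) (v, 0))‖ ≤
        1 / (36 * K ^ 3) * (3 * K * ε) ^ 2 + (ε ^ 3 / 2) * (‖B‖ * (3 * K) * 1 +
          ‖B‖ * 1 * (3 * K)) + (ε ^ 4 / 2) * (‖B‖ * 1 * 1) := by
      rw [e2]
      refine (norm_add_le _ _).trans (add_le_add ((norm_add_le _ _).trans (add_le_add ?_ ?_)) ?_)
      · refine e1.trans ?_
        gcongr
      · rw [norm_smul, Real.norm_eq_abs, abs_of_pos (by positivity)]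
        gcongr
        exact (norm_add_le _ _).trans (add_le_add n3 n4)
      · rw [norm_smul, Real.norm_eq_abs, abs_of_pos (by positivity)]
        gcongr
    have n7 : |(P (ε • v, ε ^ 2) - ε ^ 2 • (L (0, 1) + (1 / 2 : ℝ) • B (v, 0) (v, 0))) h| ≤
        (1 / (36 * K ^ 3) * (3 * K * ε) ^ 2 + (ε ^ 3 / 2) * (‖B‖ * (3 * K) * 1 +
          ‖B‖ * 1 * (3 * K)) + (ε ^ 4 / 2) * (‖B‖ * 1 * 1)) * (2 * K) := by
      rw [← Real.norm_eq_abs]
      refine (ContinuousLinearMap.le_opNorm _ _).trans ?_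
      gcongr
    have n8 : (P (ε • v, ε ^ 2) - ε ^ 2 • (L (0, 1) + (1 / 2 : ℝ) • B (v, 0) (v, 0))) h =
        P (ε • v, ε ^ 2) h - ε ^ 2 * (L (0, 1) h + 1 / 2 * B (v, 0) (v, 0) h) := by
      simp only [sub_apply, add_apply, smul_apply, smul_eq_mul]
    rw [n8] at n7
    refine n7.trans ?_
    have n9 : (1 / (36 * K ^ 3) * (3 * K * ε) ^ 2 + (ε ^ 3 / 2) * (‖B‖ * (3 * K) * 1 +
          ‖B‖ * 1 * (3 * K)) + (ε ^ 4 / 2) * (‖B‖ * 1 * 1)) * (2 * K) =
        ε ^ 2 * (1 / 2 + ε * (K * (6 * K) * ‖B‖) + ε ^ 2 * (K * ‖B‖)) := by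
      field_simp
      ring
    rw [n9]
    have n10 : ε ^ 2 * (K * ‖B‖) ≤ ε * (K * ‖B‖) := by
      have : 0 ≤ K * ‖B‖ := by positivity
      nlinarith [mul_nonneg hε.le this]
    have n11 : ε * (K * (6 * K) * ‖B‖) + ε * (K * ‖B‖) = ε * (K * (6 * K + 1) * ‖B‖) := by ring
    have n12 : 1 / 2 + ε * (K * (6 * K) * ‖B‖) + ε ^ 2 * (K * ‖B‖) ≤ 1 := by linarith
    calc ε ^ 2 * (1 / 2 + ε * (K * (6 * K) * ‖B‖) + ε ^ 2 * (K * ‖B‖))
        ≤ ε ^ 2 * 1 := by gcongr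
      _ = ε ^ 2 := mul_one _
  -- estimate U2
  have U2 : ∀ x ∈ Icc (-1 : ℝ) 1, ∀ y ∈ Icc (-1 : ℝ) 1, ∀ t, ∀ h : V, ‖h‖ ≤ 2 * K →
      |fderiv ℝ P (ε • vv o e K x y t, ε ^ 2) (h, 0) h - ε * B (vv o e K x y t, 0) (h, 0) h| ≤ ε := by
    intro x hx y hy t h hh
    obtain ⟨v, hv⟩ : ∃ v, v = vv o e K x y t := ⟨_, rfl⟩
    have hq := hqn x hx y hy t
    have hvb := hvn x hx y hy t
    rw [← hv] at hq hvb ⊢
    have e1 := (htay (ε • v, ε ^ 2) (hq.trans_lt hεr)).2.2.1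
    have e2 : fderiv ℝ P (ε • v, ε ^ 2) - L - ε • B (v, 0) =
        (fderiv ℝ P (ε • v, ε ^ 2) - L - B (ε • v, ε ^ 2)) + ε ^ 2 • B (0, 1) := by
      have e3 : ((ε • v, ε ^ 2) : V × ℝ) = ε • (v, 0) + ε ^ 2 • (0, 1) := by
        ext <;> simp
      have e4 : B (ε • v, ε ^ 2) = ε • B (v, 0) + ε ^ 2 • B (0, 1) := by
        rw [e3, map_add, map_smul, map_smul]
      rw [e4]; abel
    have n2 : ‖((0, 1) : V × ℝ)‖ ≤ 1 := by
      rw [Prod.norm_def]; simp
    have n3 : ‖B (0, 1)‖ ≤ ‖B‖ * 1 := by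
      refine (ContinuousLinearMap.le_opNorm _ _).trans ?_
      gcongr
    have nh : ‖((h, 0) : V × ℝ)‖ ≤ 2 * K := by
      rw [Prod.norm_def]; simp only [norm_zero]
      exact max_le hh (by positivity)
    have n6 : ‖fderiv ℝ P (ε • v, ε ^ 2) - L - ε • B (v, 0)‖ ≤
        1 / (36 * K ^ 3) * (3 * K * ε) + ε ^ 2 * (‖B‖ * 1) := by
      rw [e2]
      refine (norm_add_le _ _).trans (add_le_add ?_ ?_)
      · refine e1.trans ?_
        gcongr
      · rw [norm_smul, Real.norm_eq_abs, abs_of_pos (by positivity)]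
        gcongr
    have n7 : |(fderiv ℝ P (ε • v, ε ^ 2) - L - ε • B (v, 0)) (h, 0) h| ≤
        (1 / (36 * K ^ 3) * (3 * K * ε) + ε ^ 2 * (‖B‖ * 1)) * (2 * K) * (2 * K) := by
      rw [← Real.norm_eq_abs]
      refine (ContinuousLinearMap.le_opNorm₂ _ _ _).trans ?_
      gcongr
    have n8 : (fderiv ℝ P (ε • v, ε ^ 2) - L - ε • B (v, 0)) (h, 0) h =
        fderiv ℝ P (ε • v, ε ^ 2) (h, 0) h - ε * B (v, 0) (h, 0) h := by
      simp [hL]
    rw [n8] at n7
    refine n7.trans ?_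
    have n9 : (1 / (36 * K ^ 3) * (3 * K * ε) + ε ^ 2 * (‖B‖ * 1)) * (2 * K) * (2 * K) =
        ε * (1 / 3 + ε * (K * (4 * K) * ‖B‖)) := by
      field_simp
      ring
    rw [n9]
    have n10 : ε * (K * (4 * K) * ‖B‖) ≤ ε * (K * (6 * K + 1) * ‖B‖) := by
      gcongr; linarith
    calc ε * (1 / 3 + ε * (K * (4 * K) * ‖B‖)) ≤ ε * 1 := by
          gcongr; linarith
      _ = ε := mul_one _
  -- limits
  have hLs := hs
  have hest := fun (x : ℝ) (hx : x ∈ Icc (-1 : ℝ) 1) (y : ℝ) (hy : y ∈ Icc (-1 : ℝ) 1) (t : ℝ) =>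
    est0 K ‖B‖ (B (e t, 0) (e t, 0) (e t)) x y hB0 hK.ge (hCb t) hx hy
  have V1 : ∀ x ∈ Icc (-1 : ℝ) 1, ∀ y ∈ Icc (-1 : ℝ) 1, ∀ t,
      |L (0, 1) (K • o + (1 / K) • e t) + 1 / 2 * B (vv o e K x y t, 0) (vv o e K x y t, 0)
        (K • o + (1 / K) • e t) - 4 * x| ≤ 1 := by
    intro x hx y hy t
    have e1 := (hest x hx y hy t).1
    rw [hLs, vv, tform B o (e t) _ h12 h23 hoo (hoee t) rfl]
    refine le_of_eq_of_le ?_ e1
    congr 1
    ring
  have V2 : ∀ x ∈ Icc (-1 : ℝ) 1, ∀ y ∈ Icc (-1 : ℝ) 1, ∀ t,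
      |L (0, 1) (K • o + (-(1 / K)) • e t) + 1 / 2 * B (vv o e K x y t, 0) (vv o e K x y t, 0)
        (K • o + (-(1 / K)) • e t) + 4 * y| ≤ 1 := by
    intro x hx y hy t
    have e1 := (hest x hx y hy t).2.1
    rw [hLs, vv, tform B o (e t) _ h12 h23 hoo (hoee t) rfl]
    refine le_of_eq_of_le ?_ e1
    congr 1
    ring
  have V3 : ∀ x ∈ Icc (-1 : ℝ) 1, ∀ y ∈ Icc (-1 : ℝ) 1, ∀ t,
      |B (vv o e K x y t, 0) (K • o + (1 / K) • e t, 0)
        (K • o + (1 / K) • e t) - 4| ≤ 1 := by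
    intro x hx y hy t
    have e1 := (hest x hx y hy t).2.2
    rw [vv, tform B o (e t) _ h12 h23 hoo (hoee t) rfl]
    refine le_of_eq_of_le ?_ e1
    congr 1
    have hKk : K * (1 / K) = 1 := by field_simp
    linear_combination (4 * (1 + (x - y) / K)) * hKk
  have hX1 : ∀ t, ‖K • o + (1 / K) • e t‖ ≤ 2 * K := by
    intro t
    have := hXn 1 t (by simp)
    rwa [one_mul] at this
  have hX2 : ∀ t, ‖K • o + (-(1 / K)) • e t‖ ≤ 2 * K := by
    intro t
    have := hXn (-1) t (by simp)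
    rwa [neg_one_mul] at this
  -- derivatives of F
  have hfd : ∀ x ∈ Icc (-1 : ℝ) 1, ∀ y ∈ Icc (-1 : ℝ) 1, ∀ t,
      HasFDerivAt (fun v => f (v, ε ^ 2)) (P (ε • vv o e K x y t, ε ^ 2)) (ε • vv o e K x y t) := by
    intro x hx y hy t
    have := @hf (ε • vv o e K x y t, ε ^ 2) (by
      rw [dist_zero_right]; exact (hqn x hx y hy t).trans_lt hεr2)
    exact this
  have hPd : ∀ x ∈ Icc (-1 : ℝ) 1, ∀ y ∈ Icc (-1 : ℝ) 1, ∀ t,
      HasFDerivAt P (fderiv ℝ P (ε • vv o e K x y t, ε ^ 2)) (ε • vv o e K x y t, ε ^ 2) := by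
    intro x hx y hy t
    exact (htay _ ((hqn x hx y hy t).trans_lt hεr)).1
  have hvc : Continuous (fun p : ℝ × ℝ × ℝ => vv o e K p.1 p.2.1 p.2.2) := by
    unfold vv
    fun_prop
  have hPc : ContinuousOn (fun p : ℝ × ℝ × ℝ => P (ε • vv o e K p.1 p.2.1 p.2.2, ε ^ 2))
      (Icc (-1) 1 ×ˢ (Icc (-1) 1 ×ˢ univ)) := by
    rintro ⟨x, y, t⟩ ⟨hx, hy, -⟩
    have e1 := (hPd x hx y hy t).continuousAt
    have e2 : ContinuousWithinAt (fun p : ℝ × ℝ × ℝ =>
        ((ε • vv o e K p.1 p.2.1 p.2.2, ε ^ 2) : V × ℝ))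
        (Icc (-1) 1 ×ˢ (Icc (-1) 1 ×ˢ univ)) (x, y, t) := by
      apply Continuous.continuousWithinAt
      fun_prop
    exact ContinuousAt.comp_continuousWithinAt (f := fun p : ℝ × ℝ × ℝ =>
        ((ε • vv o e K p.1 p.2.1 p.2.2, ε ^ 2) : V × ℝ)) e1 e2
  obtain ⟨x, hx, y, hy, t, hFx, hFy, hFt⟩ := hsad
    (fun x y t => f (ε • vv o e K x y t, ε ^ 2))
    (fun x y t => P (ε • vv o e K x y t, ε ^ 2) (ε • (K • o + (1 / K) • e t)))
    (fun x y t => P (ε • vv o e K x y t, ε ^ 2) (ε • (K • o + (-(1 / K)) • e t)))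
    (fun x y t => P (ε • vv o e K x y t, ε ^ 2) (ε • ((1 + (x - y) / K) • e' t)))
    (fun x hx y hy t => HasFDerivAt.comp_hasDerivAt x (f := fun x => ε • vv o e K x y t) (hfd x hx y hy t)
      ((vv_dx o e K x y t).const_smul ε))
    (fun x hx y hy t => HasFDerivAt.comp_hasDerivAt y (f := fun y => ε • vv o e K x y t) (hfd x hx y hy t)
      ((vv_dy o e K x y t).const_smul ε))
    (fun x hx y hy t => HasFDerivAt.comp_hasDerivAt t (f := fun t => ε • vv o e K x y t) (hfd x hx y hy t)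
      ((vv_dt o e e' hde K x y t).const_smul ε))
    (by
      rintro ⟨x, y, t⟩ ⟨hx, hy, -⟩
      have e1 := (hfd x hx y hy t).continuousAt
      have e2 : ContinuousWithinAt (fun p : ℝ × ℝ × ℝ => ε • vv o e K p.1 p.2.1 p.2.2)
          (Icc (-1) 1 ×ˢ (Icc (-1) 1 ×ˢ univ)) (x, y, t) := by
        apply Continuous.continuousWithinAt
        fun_prop
      exact ContinuousAt.comp_continuousWithinAt (f := fun p : ℝ × ℝ × ℝ =>
        ε • vv o e K p.1 p.2.1 p.2.2) e1 e2)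
    (hPc.clm_apply (Continuous.continuousOn (by fun_prop)))
    (hPc.clm_apply (Continuous.continuousOn (by fun_prop)))
    (hPc.clm_apply (Continuous.continuousOn (by fun_prop)))
    (by
      intro y hy t
      have hd : ∀ x ∈ Icc (-1 : ℝ) 1, HasDerivAt
          (fun x => P (ε • vv o e K x y t, ε ^ 2) (ε • (K • o + (1 / K) • e t)))
          (fderiv ℝ P (ε • vv o e K x y t, ε ^ 2) (ε • (K • o + (1 / K) • e t), 0)
            (ε • (K • o + (1 / K) • e t))) x := by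
        intro x hx
        have a1 : HasDerivAt (fun x => ((ε • vv o e K x y t, ε ^ 2) : V × ℝ))
            (ε • (K • o + (1 / K) • e t), 0) x :=
          ((vv_dx o e K x y t).const_smul ε).prodMk (hasDerivAt_const x (ε ^ 2))
        have a2 := (hPd x hx y hy t).comp_hasDerivAt x a1
        have a3 := a2.clm_apply (hasDerivAt_const x (ε • (K • o + (1 / K) • e t)))
        simpa using a3
      apply strictMonoOn_of_deriv_pos (convex_Icc _ _)
        (fun x hx => (hd x hx).continuousAt.continuousWithinAt)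
      intro x hx
      have hx' : x ∈ Icc (-1 : ℝ) 1 := interior_subset hx
      rw [(hd x hx').deriv]
      have a1 := U2 x hx' y hy t _ (hX1 t)
      have a2 := V3 x hx' y hy t
      have a3 : ((ε • (K • o + (1 / K) • e t), 0) : V × ℝ) =
          ε • (K • o + (1 / K) • e t, 0) := by ext <;> simp
      rw [a3, map_smul, map_smul, smul_apply, smul_eq_mul, smul_eq_mul]
      rw [abs_le] at a1 a2
      have a4 : ε * 3 ≤ ε * B (vv o e K x y t, 0) (K • o + (1 / K) • e t, 0)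
        (K • o + (1 / K) • e t) := by
        gcongr; linarith
      have a5 : 0 < fderiv ℝ P (ε • vv o e K x y t, ε ^ 2) (K • o + (1 / K) • e t, 0)
        (K • o + (1 / K) • e t) := by linarith
      positivity)
    (by
      intro y hy t
      constructor
      · have a1 := U1 (-1) (by norm_num) y hy t _ (hX1 t)
        have a2 := V1 (-1) (by norm_num) y hy t
        rw [abs_le] at a1 a2
        rw [map_smul, smul_eq_mul]
        have a4 : ε ^ 2 * (L (0, 1) (K • o + (1 / K) • e t) + 1 / 2 * B (vv o e K (-1) y t, 0)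
          (vv o e K (-1) y t, 0) (K • o + (1 / K) • e t)) ≤ ε ^ 2 * (-3) := by
          gcongr; linarith
        have a5 : 0 < ε ^ 2 := by positivity
        have a6 : P (ε • vv o e K (-1) y t, ε ^ 2) (K • o + (1 / K) • e t) < 0 := by linarith
        exact mul_neg_of_pos_of_neg hε a6
      · have a1 := U1 1 (by norm_num) y hy t _ (hX1 t)
        have a2 := V1 1 (by norm_num) y hy t
        rw [abs_le] at a1 a2
        rw [map_smul, smul_eq_mul]
        have a4 : ε ^ 2 * 3 ≤ ε ^ 2 * (L (0, 1) (K • o + (1 / K) • e t) + 1 / 2 *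
          B (vv o e K 1 y t, 0) (vv o e K 1 y t, 0) (K • o + (1 / K) • e t)) := by
          gcongr; linarith
        have a5 : 0 < ε ^ 2 := by positivity
        have a6 : 0 < P (ε • vv o e K 1 y t, ε ^ 2) (K • o + (1 / K) • e t) := by linarith
        exact mul_pos hε a6)
    (by
      intro x hx t
      constructor
      · have a1 := U1 x hx (-1) (by norm_num) t _ (hX2 t)
        have a2 := V2 x hx (-1) (by norm_num) t
        rw [abs_le] at a1 a2
        rw [map_smul, smul_eq_mul]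
        have a4 : ε ^ 2 * 3 ≤ ε ^ 2 * (L (0, 1) (K • o + (-(1 / K)) • e t) + 1 / 2 *
          B (vv o e K x (-1) t, 0) (vv o e K x (-1) t, 0) (K • o + (-(1 / K)) • e t)) := by
          gcongr; linarith
        have a5 : 0 < ε ^ 2 := by positivity
        have a6 : 0 < P (ε • vv o e K x (-1) t, ε ^ 2) (K • o + (-(1 / K)) • e t) := by linarith
        exact mul_pos hε a6
      · have a1 := U1 x hx 1 (by norm_num) t _ (hX2 t)
        have a2 := V2 x hx 1 (by norm_num) t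
        rw [abs_le] at a1 a2
        rw [map_smul, smul_eq_mul]
        have a4 : ε ^ 2 * (L (0, 1) (K • o + (-(1 / K)) • e t) + 1 / 2 * B (vv o e K x 1 t, 0)
          (vv o e K x 1 t, 0) (K • o + (-(1 / K)) • e t)) ≤ ε ^ 2 * (-3) := by
          gcongr; linarith
        have a5 : 0 < ε ^ 2 := by positivity
        have a6 : P (ε • vv o e K x 1 t, ε ^ 2) (K • o + (-(1 / K)) • e t) < 0 := by linarith
        exact mul_neg_of_pos_of_neg hε a6)
    (by
      intro x y t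
      simp only [vv, hper])
  -- conclusion
  have hxI : x ∈ Icc (-1 : ℝ) 1 := Ioo_subset_Icc_self hx
  have hyI : y ∈ Icc (-1 : ℝ) 1 := Ioo_subset_Icc_self hy
  obtain ⟨Q, hQ⟩ : ∃ Q, Q = P (ε • vv o e K x y t, ε ^ 2) := ⟨_, rfl⟩
  simp only [← hQ, map_smul, map_add, smul_eq_mul, mul_eq_zero, hεne, false_or] at hFx hFy hFt
  have hK1 : K ≠ 0 := hK0.ne'
  have hQo : Q o = 0 := by
    have e1 : 2 * K * Q o = 0 := by linear_combination hFx + hFy
    rcases mul_eq_zero.mp e1 with h | h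
    · exact absurd h (by positivity)
    · exact h
  have hQe : Q (e t) = 0 := by
    rw [hQo, mul_zero, zero_add] at hFx
    rcases mul_eq_zero.mp hFx with h | h
    · exact absurd h (by positivity)
    · exact h
  have hb : 0 < 1 + (x - y) / K := by
    have e1 : -(2 / K) < (x - y) / K := by
      rw [← neg_div, div_lt_div_iff_of_pos_right hK0]
      linarith [hx.1, hy.2]
    have e2 : 2 / K ≤ 1 := by rw [div_le_one hK0]; linarith
    linarith
  have hQe' : Q (e' t) = 0 := by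
    rcases hFt with h | h
    · exact absurd h hb.ne'
    · exact h
  refine ⟨ε • vv o e K x y t, ε ^ 2, by positivity, ?_, ?_, ?_⟩
  · rw [abs_of_pos (by positivity)]
    nlinarith
  · rw [norm_smul, Real.norm_eq_abs, abs_of_pos hε]
    have := hvn x hxI y hyI t
    nlinarith
  · rw [← hQ]
    exact hspan Q t hQo hQe hQe'

end gen

/-- the vector `e t` -/
noncomputable def eV (t : ℝ) : ℝ × ℂ := (0, Complex.exp (t * Complex.I))

noncomputable def eV' (t : ℝ) : ℝ × ℂ := (0, Complex.exp (t * Complex.I) * Complex.I)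

noncomputable def oV : ℝ × ℂ := (1, 0)

theorem norm_eV (t : ℝ) : ‖eV t‖ = 1 := by
  rw [eV, Prod.norm_def]
  simp [Complex.norm_exp_ofReal_mul_I]

theorem hasDerivAt_eV (t : ℝ) : HasDerivAt eV (eV' t) t := by
  have h1 : HasDerivAt (fun t : ℝ => Complex.exp (t * Complex.I))
      (Complex.exp (t * Complex.I) * Complex.I) t := by
    have h2 : HasDerivAt (fun t : ℝ => (t : ℂ) * Complex.I) Complex.I t := by
      simpa using (Complex.ofRealCLM.hasDerivAt (x := t)).mul_const Complex.I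
    exact h2.cexp
  exact (hasDerivAt_const t (0 : ℝ)).prodMk h1

theorem eV_per (t : ℝ) : eV (t + 2 * Real.pi) = eV t := by
  rw [eV, eV]
  congr 1
  push_cast
  rw [add_mul, Complex.exp_add, Complex.exp_two_pi_mul_I, mul_one]

theorem continuous_eV : Continuous eV := by
  unfold eV; fun_prop

theorem continuous_eV' : Continuous eV' := by
  unfold eV'; fun_prop

theorem span_V (Q : (ℝ × ℂ) →L[ℝ] ℝ) (t : ℝ) (h1 : Q oV = 0) (h2 : Q (eV t) = 0)
    (h3 : Q (eV' t) = 0) : Q = 0 := by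
  ext
  · simp
    exact h1
  · rename_i w
    simp only [ContinuousLinearMap.comp_apply, ContinuousLinearMap.inr_apply,
      ContinuousLinearMap.zero_comp, ContinuousLinearMap.zero_apply]
    have h4 : ((0 : ℝ), w) = (w * Complex.exp (-(t * Complex.I))).re • eV t +
        (w * Complex.exp (-(t * Complex.I))).im • eV' t := by
      rw [eV, eV']
      ext1
      · simp
      · simp only [Prod.snd_add, Prod.smul_snd, Complex.real_smul]
        obtain ⟨z, hz⟩ : ∃ z, z = w * Complex.exp (-(t * Complex.I)) := ⟨_, rfl⟩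
        rw [← hz]
        have h5 : (z.re : ℂ) * Complex.exp (t * Complex.I) +
            (z.im : ℂ) * (Complex.exp (t * Complex.I) * Complex.I)
            = ((z.re : ℂ) + z.im * Complex.I) * Complex.exp (t * Complex.I) := by ring
        rw [h5, Complex.re_add_im, hz, mul_assoc, ← Complex.exp_add, neg_add_cancel,
          Complex.exp_zero, mul_one]
    rw [h4, map_add, map_smul, map_smul, h2, h3]
    simp

theorem t_BU : S_SAD → S_BU := by
  intro hsad f P h1 h2 hP0 hL hs h6 h7 δ hδ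
  refine bu_gen hsad oV eV eV' ?_ (fun t => (norm_eV t).le) hasDerivAt_eV continuous_eV
    continuous_eV' eV_per span_V f P h1 h2 hP0 hL ?_ ?_ ?_ δ hδ
  · rw [oV, Prod.norm_def]; simp
  · intro g h t
    have e1 : g • oV + h • eV t = (g, h • Complex.exp (t * Complex.I)) := by
      rw [oV, eV]; ext <;> simp
    rw [e1, hs]
  · intro w
    rw [oV, h6]; rfl
  · intro t
    have := h7 (Complex.exp (t * Complex.I))
    rw [Complex.norm_exp_ofReal_mul_I] at this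
    rw [eV, oV, this]; norm_num

end Pool.Agent.D0H70.BF
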