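import Pool.Agent.D0H95.BF.Stm2

set_option autoImplicit false
set_option maxSynthPendingDepth 5

open Filter Topology Set

namespace Pool.Agent.D0H70.BF

open Pool.Agent.D0H95.BF

/-- Implicit function theorem with one real parameter. -/
theorem ift {X : Type*} [NormedAddCommGroup X] [NormedSpace ℝ X] [FiniteDimensional ℝ X]
    (F : ℝ × X → X) (u0 : X) (N : ℕ) (hN : 1 ≤ N) (hF : ContDiffAt ℝ N F (0, u0))
    (h0 : F (0, u0) = 0) (hinj : ∀ δ : X, fderiv ℝ F (0, u0) (0, δ) = 0 → δ = 0) :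
    ∃ φ : ℝ → X, φ 0 = u0 ∧ ContDiffAt ℝ N φ 0 ∧ ∀ᶠ e in 𝓝 (0 : ℝ), F (e, φ e) = 0 := by
  have : CompleteSpace X := FiniteDimensional.complete ℝ X
  have hN0 : (N : WithTop ℕ∞) ≠ 0 := by
    exact_mod_cast (by omega : N ≠ 0)
  have hFd : HasFDerivAt F (fderiv ℝ F (0, u0)) (0, u0) :=
    (hF.differentiableAt hN0).hasFDerivAt
  obtain ⟨G, hG⟩ : ∃ G : ℝ × X → ℝ × X, G = fun q => (q.1, F q) := ⟨_, rfl⟩
  have hGc : ContDiffAt ℝ N G (0, u0) := by
    rw [hG]; exact contDiffAt_fst.prodMk hF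
  obtain ⟨G', hG'⟩ : ∃ G' : ℝ × X →L[ℝ] ℝ × X,
    G' = (ContinuousLinearMap.fst ℝ ℝ X).prod (fderiv ℝ F (0, u0)) := ⟨_, rfl⟩
  have hGd : HasFDerivAt G G' (0, u0) := by
    rw [hG, hG']; exact hasFDerivAt_fst.prodMk hFd
  have hGinj : Function.Injective (G' : ℝ × X →ₗ[ℝ] ℝ × X) := by
    rw [← LinearMap.ker_eq_bot, LinearMap.ker_eq_bot']
    rintro ⟨τ, δ⟩ h
    rw [hG'] at h
    have h1 : τ = 0 := congrArg Prod.fst h
    have h2 : fderiv ℝ F (0, u0) (τ, δ) = 0 := congrArg Prod.snd h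
    rw [h1] at h2
    rw [h1, hinj δ h2]; rfl
  let Le := (LinearEquiv.ofInjectiveEndo (G' : ℝ × X →ₗ[ℝ] ℝ × X) hGinj).toContinuousLinearEquiv
  have hLe : HasFDerivAt G (Le : ℝ × X →L[ℝ] ℝ × X) (0, u0) := by
    refine hGd.congr_fderiv ?_
    ext1
    · ext <;> simp [Le]
    · apply ContinuousLinearMap.ext
      intro x
      simp [Le]
  have hG0 : G (0, u0) = (0, 0) := by rw [hG]; simp [h0]
  obtain ⟨H, hH⟩ : ∃ H : ℝ × X → ℝ × X, H = hGc.localInverse hLe hN0 := ⟨_, rfl⟩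
  have hHc : ContDiffAt ℝ N H (0, 0) := by
    rw [← hG0, hH]; exact hGc.to_localInverse hLe hN0
  have hH0 : H (0, 0) = (0, u0) := by
    rw [← hG0, hH]; exact hGc.localInverse_apply_image hLe hN0
  have hHr : ∀ᶠ y in 𝓝 ((0 : ℝ), (0 : X)), G (H y) = y := by
    rw [← hG0, hH]
    exact (hGc.hasStrictFDerivAt' hLe hN0).eventually_right_inverse
  have hc : Tendsto (fun e : ℝ => (e, (0 : X))) (𝓝 0) (𝓝 (0, 0)) := by
    have : Continuous (fun e : ℝ => (e, (0 : X))) := by fun_prop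
    exact this.tendsto 0
  refine ⟨fun e => (H (e, 0)).2, by simp only [hH0], ?_, ?_⟩
  · have h1 : ContDiffAt ℝ N (fun e : ℝ => (e, (0 : X))) 0 := by fun_prop
    have h2 : ContDiffAt ℝ N (fun e : ℝ => H (e, 0)) 0 := ContDiffAt.comp (0 : ℝ) hHc h1
    exact h2.snd
  · filter_upwards [hc.eventually hHr] with e he
    rw [hG] at he
    have h1 : (H (e, 0)).1 = e := congrArg Prod.fst he
    have h2 : F (H (e, 0)) = 0 := congrArg Prod.snd he
    have h3 : (e, (H (e, 0)).2) = H (e, 0) := by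
      ext1
      · exact h1.symm
      · rfl
    rw [h3, h2]

section eig

variable {E : Type} [NormedAddCommGroup E] [NormedSpace ℝ E]

/-- the equations -/
noncomputable def eqF (ω : E →L[ℝ] E →L[ℝ] ℝ) (M : ℝ → E →L[ℝ] E) (p0 r0 : E) :
    ℝ × (E × E × ℝ × ℝ) → E × E × ℝ × ℝ := fun q =>
  (M q.1 q.2.1 - q.2.2.2.1 • q.2.1 + q.2.2.2.2 • q.2.2.1,
   M q.1 q.2.2.1 - q.2.2.2.2 • q.2.1 - q.2.2.2.1 • q.2.2.1,
   ω p0 q.2.1 + ω r0 q.2.2.1,
   ω p0 q.2.2.1 - ω r0 q.2.1 - 2 * ω p0 r0)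

theorem eqF_contDiff (ω : E →L[ℝ] E →L[ℝ] ℝ) (M : ℝ → E →L[ℝ] E) (p0 r0 : E) (N : ℕ)
    (hM : ContDiffAt ℝ N M 0) (u0 : E × E × ℝ × ℝ) :
    ContDiffAt ℝ N (eqF ω M p0 r0) (0, u0) := by
  have hM1 : ContDiffAt ℝ N (fun q : ℝ × (E × E × ℝ × ℝ) => M q.1) (0, u0) :=
    ContDiffAt.comp (0, u0) (g := M) hM contDiffAt_fst
  unfold eqF
  refine ContDiffAt.prodMk ?_ (ContDiffAt.prodMk ?_ (ContDiffAt.prodMk ?_ ?_))
  · refine ContDiffAt.add (ContDiffAt.sub (hM1.clm_apply (by fun_prop)) (by fun_prop))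
      (by fun_prop)
  · refine ContDiffAt.sub (ContDiffAt.sub (hM1.clm_apply (by fun_prop)) (by fun_prop))
      (by fun_prop)
  · fun_prop
  · fun_prop

theorem eqF_deriv (ω : E →L[ℝ] E →L[ℝ] ℝ) (M : ℝ → E →L[ℝ] E) (p0 r0 p r : E) (x y : ℝ) (N : ℕ)
    (hN : 1 ≤ N) (hM : ContDiffAt ℝ N M 0) (δp δr : E) (δx δy : ℝ) :
    fderiv ℝ (eqF ω M p0 r0) (0, (p, r, x, y)) (0, (δp, δr, δx, δy)) =
      (M 0 δp - (x • δp + δx • p) + (y • δr + δy • r),
       M 0 δr - (y • δp + δy • p) - (x • δr + δx • r),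
       ω p0 δp + ω r0 δr, ω p0 δr - ω r0 δp) := by
  have hN0 : (N : WithTop ℕ∞) ≠ 0 := by
    exact_mod_cast (by omega : N ≠ 0)
  have hFd : HasFDerivAt (eqF ω M p0 r0) (fderiv ℝ (eqF ω M p0 r0) (0, (p, r, x, y)))
      (0, (p, r, x, y)) :=
    ((eqF_contDiff ω M p0 r0 N hM _).differentiableAt hN0).hasFDerivAt
  have line : ∀ {W : Type} [NormedAddCommGroup W] [NormedSpace ℝ W] (a d : W),
      HasDerivAt (fun s : ℝ => a + s • d) d 0 := by
    intro W _ _ a d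
    simpa using ((hasDerivAt_id (0 : ℝ)).smul_const d).const_add a
  have c1 : HasDerivAt (fun s : ℝ => ((0 : ℝ), (p + s • δp, r + s • δr, x + s • δx, y + s • δy)))
      ((0 : ℝ), (δp, δr, δx, δy)) 0 :=
    (hasDerivAt_const _ _).prodMk ((line p δp).prodMk ((line r δr).prodMk
      ((line x δx).prodMk (line y δy))))
  have c2 : HasDerivAt (fun s : ℝ => eqF ω M p0 r0
      ((0 : ℝ), (p + s • δp, r + s • δr, x + s • δx, y + s • δy)))
      (fderiv ℝ (eqF ω M p0 r0) (0, (p, r, x, y)) (0, (δp, δr, δx, δy))) 0 := by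
    have hFd' : HasFDerivAt (eqF ω M p0 r0) (fderiv ℝ (eqF ω M p0 r0) (0, (p, r, x, y)))
        ((fun s : ℝ => ((0 : ℝ), (p + s • δp, r + s • δr, x + s • δx, y + s • δy))) 0) := by
      simpa using hFd
    exact hFd'.comp_hasDerivAt (0 : ℝ) c1
  have m1 := (M 0).hasFDerivAt.comp_hasDerivAt (0 : ℝ) (line p δp)
  have m2 := (M 0).hasFDerivAt.comp_hasDerivAt (0 : ℝ) (line r δr)
  have w1 := (ω p0).hasFDerivAt.comp_hasDerivAt (0 : ℝ) (line p δp)
  have w2 := (ω r0).hasFDerivAt.comp_hasDerivAt (0 : ℝ) (line r δr)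
  have w3 := (ω p0).hasFDerivAt.comp_hasDerivAt (0 : ℝ) (line r δr)
  have w4 := (ω r0).hasFDerivAt.comp_hasDerivAt (0 : ℝ) (line p δp)
  have s1 := (line x δx).smul (line p δp)
  have s2 := (line y δy).smul (line r δr)
  have s3 := (line y δy).smul (line p δp)
  have s4 := (line x δx).smul (line r δr)
  have c3 := ((m1.sub s1).add s2).prodMk (((m2.sub s3).sub s4).prodMk ((w1.add w2).prodMk
    ((w3.sub w4).sub_const (2 * ω p0 r0))))
  have c4 := c2.unique c3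
  rw [c4]
  simp

end eig

theorem t_EIG : S_EIG := by
  intro E _ _ _ ω M p0 r0 α0 N hN hω hinv hM hp hr hw hsim
  obtain ⟨x0, hx0⟩ : ∃ x0, x0 = Real.cos α0 := ⟨_, rfl⟩
  obtain ⟨y0, hy0⟩ : ∃ y0, y0 = Real.sin α0 := ⟨_, rfl⟩
  have hxy : x0 ^ 2 + y0 ^ 2 = 1 := by rw [hx0, hy0]; exact Real.cos_sq_add_sin_sq α0
  rw [← hx0, ← hy0] at hp hr
  simp only [← hx0, ← hy0] at hsim
  have hωs : ∀ x, ω x x = 0 := by
    intro x
    have := hω x x
    linarith
  have hinv0 : ∀ x y, ω (M 0 x) (M 0 y) = ω x y := hinv.self_of_nhds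
  have hrp : ω r0 p0 = - ω p0 r0 := hω r0 p0
  obtain ⟨φ, hφ0, hφc, hφ⟩ := ift (eqF ω M p0 r0) (p0, r0, x0, y0) N hN
    (eqF_contDiff ω M p0 r0 N hM _)
    (by
      simp only [eqF, hp, hr, hωs, hrp]
      ext
      · simp
      · simp
      · simp
      · simp; ring)
    (by
      rintro ⟨δp, δr, δx, δy⟩ h
      rw [eqF_deriv ω M p0 r0 p0 r0 x0 y0 N hN hM] at h
      simp only [Prod.mk_eq_zero] at h
      obtain ⟨h1, h2, h3, h4⟩ := h
      have E1 : M 0 δp = x0 • δp - y0 • δr + δx • p0 - δy • r0 := by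
        rw [← sub_eq_zero, ← h1]; abel
      have E2 : M 0 δr = y0 • δp + x0 • δr + δy • p0 + δx • r0 := by
        rw [← sub_eq_zero, ← h2]; abel
      have I1 := hinv0 p0 δp
      have I2 := hinv0 p0 δr
      have I3 := hinv0 r0 δp
      have I4 := hinv0 r0 δr
      rw [E1] at I1 I3
      rw [E2] at I2 I4
      rw [hp] at I1 I2
      rw [hr] at I3 I4
      simp only [map_sub, map_add, map_smul, sub_apply, add_apply, smul_apply, smul_eq_mul,
        hωs, hrp] at I1 I2 I3 I4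
      have J1 : ω p0 r0 * (y0 * δx - x0 * δy) = 0 := by
        linear_combination (1 / 2) * (I1 + I4) - (1 / 2) * (ω p0 δp + ω r0 δr) * hxy
      have J2 : ω p0 r0 * (x0 * δx + y0 * δy) = 0 := by
        linear_combination (1 / 2) * (I2 - I3) - (1 / 2) * (ω p0 δr - ω r0 δp) * hxy
      have J1' : y0 * δx - x0 * δy = 0 := by
        rcases mul_eq_zero.mp J1 with h | h
        · exact absurd h hw
        · exact h
      have J2' : x0 * δx + y0 * δy = 0 := by
        rcases mul_eq_zero.mp J2 with h | h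
        · exact absurd h hw
        · exact h
      have hδx : δx = 0 := by linear_combination y0 * J1' + x0 * J2' - δx * hxy
      have hδy : δy = 0 := by linear_combination (-x0) * J1' + y0 * J2' - δy * hxy
      rw [hδx, hδy] at E1 E2
      simp only [zero_smul, add_zero, sub_zero] at E1 E2
      obtain ⟨c, d, hc, hd⟩ := hsim δp δr E1 E2
      rw [hc, hd] at h3 h4
      simp only [map_sub, map_add, map_smul, smul_eq_mul, hωs, hrp] at h3 h4
      have hd0 : d = 0 := by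
        have : ω p0 r0 * d = 0 := by linear_combination (-1 / 2) * h3
        rcases mul_eq_zero.mp this with h | h
        · exact absurd h hw
        · exact h
      have hc0 : c = 0 := by
        have : ω p0 r0 * c = 0 := by linear_combination (1 / 2) * h4
        rcases mul_eq_zero.mp this with h | h
        · exact absurd h hw
        · exact h
      rw [hc, hd, hδx, hδy, hc0, hd0]
      simp)
  -- the functions
  have hpc : ContDiffAt ℝ N (fun e => (φ e).1) 0 := hφc.fst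
  have hrc : ContDiffAt ℝ N (fun e => (φ e).2.1) 0 := hφc.snd.fst
  have hxc : ContDiffAt ℝ N (fun e => (φ e).2.2.1) 0 := hφc.snd.snd.fst
  have hyc : ContDiffAt ℝ N (fun e => (φ e).2.2.2) 0 := hφc.snd.snd.snd
  obtain ⟨z, hz⟩ : ∃ z : ℝ → ℂ, z = fun e =>
    (((φ e).2.2.1 : ℂ) + ((φ e).2.2.2 : ℂ) * Complex.I) * Complex.exp (-(α0 * Complex.I)) :=
    ⟨_, rfl⟩
  have hzc : ContDiffAt ℝ N z 0 := by
    rw [hz]
    have h1 : ContDiffAt ℝ N (fun e => ((φ e).2.2.1 : ℂ)) 0 :=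
      Complex.ofRealCLM.contDiff.contDiffAt.comp (0 : ℝ) hxc
    have h2 : ContDiffAt ℝ N (fun e => ((φ e).2.2.2 : ℂ)) 0 :=
      Complex.ofRealCLM.contDiff.contDiffAt.comp (0 : ℝ) hyc
    fun_prop
  have hz0 : z 0 = 1 := by
    rw [hz]
    simp only [hφ0]
    rw [hx0, hy0, Complex.ofReal_cos, Complex.ofReal_sin, ← Complex.exp_mul_I, ← Complex.exp_add]
    simp
  have hlog : ContDiffAt ℝ N Complex.log (z 0) := by
    rw [hz0]
    have : ContDiffAt ℂ N Complex.log 1 := Complex.contDiffAt_log (by simp)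
    exact this.restrict_scalars ℝ
  have hαc : ContDiffAt ℝ N (fun e => α0 + (Complex.log (z e)).im) 0 := by
    have h1 : ContDiffAt ℝ N (fun e => Complex.log (z e)) 0 := hlog.comp (0 : ℝ) hzc
    have h2 : ContDiffAt ℝ N (fun e => (Complex.log (z e)).im) 0 :=
      Complex.imCLM.contDiff.contDiffAt.comp (0 : ℝ) h1
    exact contDiffAt_const.add h2
  refine ⟨fun e => (φ e).1, fun e => (φ e).2.1, fun e => α0 + (Complex.log (z e)).im,
    by simp [hφ0], by simp [hφ0], by simp [hz0], hpc, hrc, hαc, ?_⟩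
  have hwc : ContinuousAt (fun e => ω (φ e).1 (φ e).2.1) 0 := by
    have h1 := hpc.continuousAt
    have h2 := hrc.continuousAt
    fun_prop
  have hwne : ∀ᶠ e in 𝓝 (0 : ℝ), ω (φ e).1 (φ e).2.1 ≠ 0 := by
    apply hwc.eventually_ne
    simpa [hφ0] using hw
  filter_upwards [hφ, hinv, hwne] with e he hie hwe
  obtain ⟨p, hpdef⟩ : ∃ p, p = (φ e).1 := ⟨_, rfl⟩
  obtain ⟨r, hrdef⟩ : ∃ r, r = (φ e).2.1 := ⟨_, rfl⟩
  obtain ⟨x, hxdef⟩ : ∃ x, x = (φ e).2.2.1 := ⟨_, rfl⟩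
  obtain ⟨y, hydef⟩ : ∃ y, y = (φ e).2.2.2 := ⟨_, rfl⟩
  have hze : z e = ((x : ℂ) + (y : ℂ) * Complex.I) * Complex.exp (-(α0 * Complex.I)) := by
    rw [hz, hxdef, hydef]
  simp only [eqF, ← hpdef, ← hrdef, ← hxdef, ← hydef, Prod.mk_eq_zero] at he
  rw [← hpdef, ← hrdef] at hwe ⊢
  obtain ⟨he1, he2, -, -⟩ := he
  have E1 : M e p = x • p - y • r := by
    rw [← sub_eq_zero, ← he1]; abel
  have E2 : M e r = y • p + x • r := by
    rw [← sub_eq_zero, ← he2]; abel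
  have hrp' : ω r p = - ω p r := hω r p
  have hxy1 : x ^ 2 + y ^ 2 = 1 := by
    have h1 := hie p r
    rw [E1, E2] at h1
    simp only [map_sub, map_add, map_smul, sub_apply, smul_apply, smul_eq_mul,
      hωs, hrp'] at h1
    have h2 : (x ^ 2 + y ^ 2 - 1) * ω p r = 0 := by linear_combination h1
    rcases mul_eq_zero.mp h2 with h | h
    · linarith
    · exact absurd h hwe
  have hnorm : ‖z e‖ = 1 := by
    rw [hze, norm_mul]
    have h1 : ‖Complex.exp (-(α0 * Complex.I))‖ = 1 := by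
      rw [← neg_mul, ← Complex.ofReal_neg]; exact Complex.norm_exp_ofReal_mul_I _
    have h2 : ‖(x : ℂ) + (y : ℂ) * Complex.I‖ = 1 := by
      rw [← sq_eq_sq₀ (norm_nonneg _) (by norm_num), ← Complex.normSq_eq_norm_sq,
        Complex.normSq_add_mul_I, hxy1]; norm_num
    rw [h1, h2, one_mul]
  have hexp : Complex.exp (((α0 + (Complex.log (z e)).im : ℝ) : ℂ) * Complex.I)
      = (x : ℂ) + (y : ℂ) * Complex.I := by
    rw [Complex.log_im]
    push_cast
    rw [add_mul, Complex.exp_add]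
    have h1 : Complex.exp ((Complex.arg (z e) : ℂ) * Complex.I) = z e := by
      have := Complex.norm_mul_exp_arg_mul_I (z e)
      rw [hnorm] at this
      simpa using this
    rw [h1, hze, mul_comm, mul_assoc, ← Complex.exp_add]
    simp
  have hcos : Real.cos (α0 + (Complex.log (z e)).im) = x := by
    have h1 := congrArg Complex.re hexp
    rw [Complex.exp_ofReal_mul_I_re] at h1
    simpa using h1
  have hsin : Real.sin (α0 + (Complex.log (z e)).im) = y := by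
    have h1 := congrArg Complex.im hexp
    rw [Complex.exp_ofReal_mul_I_im] at h1
    simpa using h1
  rw [hcos, hsin]
  exact ⟨E1, E2⟩

end Pool.Agent.D0H70.BF
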