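import Pool.Agent.D0H95.BF.Stm6
import Pool.Agent.D0H9.BF.Ndg

/-!
Module FOUR: four different eigenvalues other than `1, -1` of a symplectic operator imply
nondegeneracy.
-/

set_option autoImplicit false

open TensorProduct

namespace Pool.Agent.D0H70.BF.Four

open Pool.Agent.D0H95.BF

/-- The symplectic form. -/
noncomputable def om : LinearMap.BilinForm ℝ (ℂ × ℂ) :=
  LinearMap.mk₂ ℝ (fun x y => ((starRingEnd ℂ) x.1 * y.2).re - ((starRingEnd ℂ) y.1 * x.2).re)
    (by intro x x' y; simp [mul_add, add_mul]; ring)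
    (by intro c x y; simp; ring)
    (by intro x y y'; simp [mul_add, add_mul]; ring)
    (by intro c x y; simp; ring)

theorem om_apply (x y : ℂ × ℂ) :
    om x y = ((starRingEnd ℂ) x.1 * y.2).re - ((starRingEnd ℂ) y.1 * x.2).re := rfl

theorem om_nondeg (x : ℂ × ℂ) (h : ∀ y, om x y = 0) : x = 0 := by
  have h1 := h (0, 1)
  have h2 := h (0, Complex.I)
  have h3 := h (1, 0)
  have h4 := h (Complex.I, 0)
  rw [om_apply] at h1 h2 h3 h4
  simp at h1 h2 h3 h4
  exact Prod.ext (Complex.ext h1 h2) (Complex.ext h3 h4)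

/-- The complex vector. -/
noncomputable def V (q s : ℂ × ℂ) : ℂ ⊗[ℝ] (ℂ × ℂ) := (1 : ℂ) ⊗ₜ[ℝ] q + Complex.I ⊗ₜ[ℝ] s

theorem om_V (q s q' s' : ℂ × ℂ) :
    (om.baseChange ℂ) (V q s) (V q' s') =
      ((om q q' - om s s' : ℝ) : ℂ) + ((om q s' + om s q' : ℝ) : ℂ) * Complex.I := by
  unfold V
  simp only [map_add, LinearMap.add_apply, LinearMap.BilinForm.baseChange_tmul, one_mul, mul_one,
    Complex.I_mul_I, Complex.real_smul]
  push_cast
  ring

theorem V_nd (q s : ℂ × ℂ) (h : ∀ q' s', (om.baseChange ℂ) (V q s) (V q' s') = 0) :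
    q = 0 ∧ s = 0 := by
  constructor
  · apply om_nondeg
    intro y
    have h1 := congrArg Complex.re (h y 0)
    rw [om_V] at h1
    simpa using h1
  · apply om_nondeg
    intro y
    have h1 := congrArg Complex.im (h y 0)
    rw [om_V] at h1
    simpa using h1

theorem T_V (M : ℂ × ℂ →L[ℝ] ℂ × ℂ) (m : ℂ) (q s : ℂ × ℂ)
    (h1 : M q = m.re • q - m.im • s) (h2 : M s = m.im • q + m.re • s) :
    (M : ℂ × ℂ →ₗ[ℝ] ℂ × ℂ).baseChange ℂ (V q s) = m • V q s := by
  have hm : m = (m.re : ℂ) + m.im * Complex.I := (Complex.re_add_im m).symm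
  have h3 : m * 1 = m.re • (1 : ℂ) + m.im • Complex.I := by
    rw [mul_one, Complex.real_smul, Complex.real_smul, mul_one, ← hm]
  have h4 : m * Complex.I = m.re • Complex.I + (-m.im) • (1 : ℂ) := by
    have hI : Complex.I * Complex.I = -1 := Complex.I_mul_I
    rw [Complex.real_smul, Complex.real_smul]
    push_cast
    linear_combination (Complex.I) * hm + (m.im : ℂ) * hI
  unfold V
  rw [map_add, LinearMap.baseChange_tmul, LinearMap.baseChange_tmul, ContinuousLinearMap.coe_coe,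
    h1, h2, smul_add, TensorProduct.smul_tmul', TensorProduct.smul_tmul', smul_eq_mul, smul_eq_mul,
    h3, h4]
  simp only [TensorProduct.tmul_add, TensorProduct.tmul_smul, TensorProduct.add_tmul,
    TensorProduct.smul_tmul, TensorProduct.tmul_sub]
  module

/-- Pairing of the eigenvalues. -/
theorem pairs (μ : Fin 4 → ℂ) (hμ : Function.Injective μ)
    (h : ∀ i, ∃ j, j ≠ i ∧ μ i * μ j = 1) :
    ∃ a b c d : Fin 4, Function.Injective ![a, b, c, d] ∧ μ a * μ b = 1 ∧ μ c * μ d = 1 := by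
  have h0 : ∀ i, μ i ≠ 0 := by
    intro i hi
    obtain ⟨j, -, hj⟩ := h i
    rw [hi, zero_mul] at hj
    exact zero_ne_one hj
  have hu : ∀ i j k, μ i * μ j = 1 → μ i * μ k = 1 → j = k := by
    intro i j k h1 h2
    apply hμ
    apply mul_left_cancel₀ (h0 i)
    rw [h1, h2]
  have hs : ∀ i j, μ i * μ j = 1 → μ j * μ i = 1 := fun i j h1 => by rw [mul_comm]; exact h1
  obtain ⟨b, hb, hab⟩ := h 0
  have key : ∀ c d : Fin 4, c ≠ 0 → c ≠ b → μ c * μ d = 1 → d ≠ c →
      Function.Injective ![0, b, c, d] := by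
    intro c d hc0 hcb hcd hdc
    have hd0 : d ≠ 0 := by
      rintro rfl
      exact hcb (hu 0 c b (hs _ _ hcd) hab)
    have hdb : d ≠ b := by
      rintro rfl
      exact hc0 (hu d c 0 (hs _ _ hcd) (hs _ _ hab))
    intro i j hij
    fin_cases i <;> fin_cases j <;> simp_all
  obtain ⟨c, hc0, hcb⟩ : ∃ c : Fin 4, c ≠ 0 ∧ c ≠ b := by
    revert b
    intro b _ _ _
    by_cases h1 : b = 1
    · exact ⟨2, by decide, by rw [h1]; decide⟩
    · exact ⟨1, by decide, fun h2 => h1 h2.symm⟩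
  obtain ⟨d, hdc, hcd⟩ := h c
  exact ⟨0, b, c, d, key c d hc0 hcb hcd hdc, hab, hcd⟩

theorem main (M : ℂ × ℂ →L[ℝ] ℂ × ℂ)
    (hM : ∀ x y : ℂ × ℂ, ((starRingEnd ℂ) (M x).1 * (M y).2).re - ((starRingEnd ℂ) (M y).1 * (M x).2).re =
      ((starRingEnd ℂ) x.1 * y.2).re - ((starRingEnd ℂ) y.1 * x.2).re)
    (μ : Fin 4 → ℂ) (hμ : Function.Injective μ) (hμ1 : ∀ j, μ j ≠ 1 ∧ μ j ≠ -1)
    (h : ∀ j, ∃ q s : ℂ × ℂ, (q ≠ 0 ∨ s ≠ 0) ∧ M q = (μ j).re • q - (μ j).im • s ∧
      M s = (μ j).im • q + (μ j).re • s) : nd M ≠ 0 := by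
  choose q s hqs hq hs using h
  have hom : ∀ x y, om (M x) (M y) = om x y := hM
  set T := (M : ℂ × ℂ →ₗ[ℝ] ℂ × ℂ).baseChange ℂ with hT
  have hTv : ∀ j, T (V (q j) (s j)) = μ j • V (q j) (s j) := fun j => T_V M (μ j) _ _ (hq j) (hs j)
  have hv0 : ∀ j, V (q j) (s j) ≠ 0 := by
    intro j h0
    obtain ⟨h1, h2⟩ := V_nd (q j) (s j) (by intro q' s'; rw [h0]; simp)
    rcases hqs j with h3 | h3
    · exact h3 h1
    · exact h3 h2
  have hΩ : ∀ i j, (om.baseChange ℂ) (V (q i) (s i)) (V (q j) (s j)) =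
      (μ i * μ j) * (om.baseChange ℂ) (V (q i) (s i)) (V (q j) (s j)) := by
    intro i j
    have h1 : (om.baseChange ℂ) (V (M (q i)) (M (s i))) (V (M (q j)) (M (s j))) =
        (om.baseChange ℂ) (V (q i) (s i)) (V (q j) (s j)) := by
      rw [om_V, om_V, hom, hom, hom, hom]
    have h2 : ∀ j, V (M (q j)) (M (s j)) = T (V (q j) (s j)) := by
      intro j
      unfold V
      rw [map_add, hT, LinearMap.baseChange_tmul, LinearMap.baseChange_tmul]
      rfl
    rw [h2, h2, hTv, hTv] at h1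
    simp only [map_smul, LinearMap.smul_apply, smul_eq_mul] at h1
    linear_combination (-1) * h1
  have hli : LinearIndependent ℂ (fun j => V (q j) (s j)) :=
    Module.End.eigenvectors_linearIndependent' T μ hμ _
      (fun i => ⟨Module.End.mem_eigenspace_iff.2 (hTv i), hv0 i⟩)
  have hfr : Module.finrank ℂ (ℂ ⊗[ℝ] (ℂ × ℂ)) = 4 := by
    rw [Module.finrank_baseChange, Module.finrank_prod, Complex.finrank_real_complex]
  let b := basisOfLinearIndependentOfCardEqFinrank hli (by rw [hfr]; simp)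
  have hb : ∀ i, b i = V (q i) (s i) := fun i => by simp [b]
  have hpair : ∀ i, ∃ j, j ≠ i ∧ μ i * μ j = 1 := by
    intro i
    by_contra hno
    push Not at hno
    have h1 : ∀ j, (om.baseChange ℂ) (V (q i) (s i)) (V (q j) (s j)) = 0 := by
      intro j
      have h2 : μ i * μ j ≠ 1 := by
        by_cases hji : j = i
        · rw [hji]
          intro h3
          have h4 : (μ i - 1) * (μ i + 1) = 0 := by linear_combination h3
          rcases mul_eq_zero.1 h4 with h5 | h5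
          · exact (hμ1 i).1 (sub_eq_zero.1 h5)
          · exact (hμ1 i).2 (eq_neg_of_add_eq_zero_left h5)
        · exact hno j hji
      have h3 := hΩ i j
      by_contra h4
      apply h2
      have h5 : (μ i * μ j) * (om.baseChange ℂ) (V (q i) (s i)) (V (q j) (s j)) =
        1 * (om.baseChange ℂ) (V (q i) (s i)) (V (q j) (s j)) := by rw [one_mul, ← h3]
      exact mul_right_cancel₀ h4 h5
    have h2 : (om.baseChange ℂ) (V (q i) (s i)) = 0 := by
      apply b.ext
      intro j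
      rw [hb, h1]
      rfl
    obtain ⟨h3, h4⟩ := V_nd (q i) (s i) (by intro q' s'; rw [h2]; rfl)
    rcases hqs i with h5 | h5
    · exact h5 h3
    · exact h5 h4
  obtain ⟨a, b', c, d, hinj, hab, hcd⟩ := pairs μ hμ hpair
  apply Pool.Agent.D0H9.BF.Ndg.nd_ne M (μ ∘ ![a, b', c, d]) (fun i => V (q (![a, b', c, d] i)) (s (![a, b', c, d] i)))
    (fun i => hv0 _) (hμ.comp hinj) (fun i => hTv _) (μ a) (μ c) (μ b') (μ d) ?_ hab hcd
  funext i
  fin_cases i <;> rfl

end Pool.Agent.D0H70.BF.Four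

namespace Pool.Agent.D0H70.BF

/-- Module FOUR. -/
theorem t_FOUR : Pool.Agent.D0H95.BF.S_FOUR := Four.main

end Pool.Agent.D0H70.BF
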