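import Pool.Agent.D0H95.BF.Stm

set_option autoImplicit false

open Filter Topology Set

namespace Pool.Agent.D0H70.BF

open Pool.Agent.D0H95.BF

/-- min property -/
theorem sad_min (g g' : ℝ → ℝ) (hg : ∀ x ∈ Icc (-1 : ℝ) 1, HasDerivAt g (g' x) x)
    (hm : StrictMonoOn g' (Icc (-1) 1)) (X : ℝ) (hX : X ∈ Icc (-1 : ℝ) 1) (h0 : g' X = 0) :
    ∀ x ∈ Icc (-1 : ℝ) 1, g X ≤ g x := by
  intro x hx
  rcases lt_trichotomy x X with h | h | h
  · obtain ⟨ξ, hξ, he⟩ := exists_hasDerivAt_eq_slope g g' h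
      (fun z hz => (hg z ⟨hx.1.trans hz.1, hz.2.trans hX.2⟩).continuousAt.continuousWithinAt)
      (fun z hz => hg z ⟨hx.1.trans hz.1.le, hz.2.le.trans hX.2⟩)
    have h1 : g' ξ < g' X := hm ⟨hx.1.trans hξ.1.le, hξ.2.le.trans hX.2⟩ hX hξ.2
    rw [h0, he, div_neg_iff] at h1
    rcases h1 with h1 | h1
    · linarith [h1.2]
    · linarith [h1.1]
  · rw [h]
  · obtain ⟨ξ, hξ, he⟩ := exists_hasDerivAt_eq_slope g g' h
      (fun z hz => (hg z ⟨hX.1.trans hz.1, hz.2.trans hx.2⟩).continuousAt.continuousWithinAt)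
      (fun z hz => hg z ⟨hX.1.trans hz.1.le, hz.2.le.trans hx.2⟩)
    have h1 : g' X < g' ξ := hm hX ⟨hX.1.trans hξ.1.le, hξ.2.le.trans hx.2⟩ hξ.1
    rw [h0, he, div_pos_iff] at h1
    rcases h1 with h1 | h1
    · linarith [h1.1]
    · linarith [h1.2]

/-- continuity of the zero -/
theorem sad_cont {Z : Type*} [TopologicalSpace Z] (S : Set Z) (g : ℝ → Z → ℝ) (X : Z → ℝ)
    (hc : ContinuousOn (fun p : ℝ × Z => g p.1 p.2) (Icc (-1) 1 ×ˢ S))
    (hm : ∀ z ∈ S, StrictMonoOn (fun x => g x z) (Icc (-1) 1))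
    (hX : ∀ z ∈ S, X z ∈ Ioo (-1 : ℝ) 1) (h0 : ∀ z ∈ S, g (X z) z = 0) : ContinuousOn X S := by
  intro z0 hz0
  rw [ContinuousWithinAt, tendsto_order]
  have hc1 : ∀ x ∈ Icc (-1 : ℝ) 1, ContinuousOn (fun z => g x z) S := by
    intro x hx
    exact hc.comp (f := fun z => (x, z)) (by fun_prop) (fun z hz => ⟨hx, hz⟩)
  constructor
  · intro a ha
    have ha' : max a (-1) < X z0 := max_lt ha (hX z0 hz0).1
    have haI : max a (-1) ∈ Icc (-1 : ℝ) 1 := ⟨le_max_right _ _, (ha'.trans (hX z0 hz0).2).le⟩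
    have h1 : g (max a (-1)) z0 < 0 := by
      have := hm z0 hz0 haI ⟨(hX z0 hz0).1.le, (hX z0 hz0).2.le⟩ ha'
      simp only at this
      rwa [h0 z0 hz0] at this
    have h2 := (hc1 _ haI z0 hz0).eventually_lt_const h1
    filter_upwards [h2, self_mem_nhdsWithin] with z hz hzS
    by_contra hcon
    push Not at hcon
    have h3 : X z ≤ max a (-1) := hcon.trans (le_max_left _ _)
    have h4 := (hm z hzS).monotoneOn ⟨(hX z hzS).1.le, (hX z hzS).2.le⟩ haI h3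

    rw [h0 z hzS] at h4
    linarith
  · intro a ha
    have ha' : X z0 < min a 1 := lt_min ha (hX z0 hz0).2
    have haI : min a 1 ∈ Icc (-1 : ℝ) 1 := ⟨((hX z0 hz0).1.trans ha').le, min_le_right _ _⟩
    have h1 : 0 < g (min a 1) z0 := by
      have := hm z0 hz0 ⟨(hX z0 hz0).1.le, (hX z0 hz0).2.le⟩ haI ha'
      simp only at this
      rwa [h0 z0 hz0] at this
    have h2 := (hc1 _ haI z0 hz0).eventually_const_lt h1
    filter_upwards [h2, self_mem_nhdsWithin] with z hz hzS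
    by_contra hcon
    push Not at hcon
    have h3 : min a 1 ≤ X z := (min_le_left _ _).trans hcon
    have h4 := (hm z hzS).monotoneOn haI ⟨(hX z hzS).1.le, (hX z hzS).2.le⟩ h3

    rw [h0 z hzS] at h4
    linarith

/-- envelope lemma -/
theorem sad_env (G Gz : ℝ → ℝ → ℝ) (X : ℝ → ℝ) (hX : ∀ s ∈ Icc (0 : ℝ) 1, X s ∈ Icc (-1 : ℝ) 1)
    (hXc : ContinuousOn X (Icc 0 1))
    (hG : ∀ x ∈ Icc (-1 : ℝ) 1, ∀ s ∈ Icc (0 : ℝ) 1, HasDerivAt (G x) (Gz x s) s)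
    (hGz : ContinuousOn (fun p : ℝ × ℝ => Gz p.1 p.2) (Icc (-1) 1 ×ˢ Icc 0 1))
    (hmin : ∀ x ∈ Icc (-1 : ℝ) 1, G (X 0) 0 ≤ G x 0)
    (hmax : ∀ s ∈ Icc (0 : ℝ) 1, G (X s) s ≤ G (X 0) 0) : Gz (X 0) 0 ≤ 0 := by
  by_contra hcon
  push Not at hcon
  have h0I : (0 : ℝ) ∈ Icc (0 : ℝ) 1 := ⟨le_rfl, zero_le_one⟩
  have h1 := (hGz (X 0, 0) ⟨hX 0 h0I, h0I⟩).eventually_const_lt hcon
  rw [eventually_nhdsWithin_iff, Metric.eventually_nhds_iff] at h1
  obtain ⟨ε, hε, h1⟩ := h1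
  have h2 := hXc 0 h0I
  rw [Metric.continuousWithinAt_iff] at h2
  obtain ⟨δ, hδ, h2⟩ := h2 ε hε
  set s := min 1 (min (ε / 2) (δ / 2)) with hs
  have hs0 : 0 < s := by positivity
  have hs1 : s ≤ 1 := min_le_left _ _
  have hsε : s ≤ ε / 2 := (min_le_right _ _).trans (min_le_left _ _)
  have hsδ : s ≤ δ / 2 := (min_le_right _ _).trans (min_le_right _ _)
  have hsI : s ∈ Icc (0 : ℝ) 1 := ⟨hs0.le, hs1⟩
  have h3 : dist (X s) (X 0) < ε := h2 hsI (by
    rw [Real.dist_eq, sub_zero, abs_of_pos hs0]; linarith)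
  obtain ⟨ξ, hξ, he⟩ := exists_hasDerivAt_eq_slope (G (X s)) (Gz (X s)) hs0
      (fun z hz => (hG _ (hX s hsI) z ⟨hz.1, hz.2.trans hs1⟩).continuousAt.continuousWithinAt)
      (fun z hz => hG _ (hX s hsI) z ⟨hz.1.le, hz.2.le.trans hs1⟩)
  have h4 : 0 < Gz (X s) ξ := by
    refine @h1 (X s, ξ) ?_ ⟨hX s hsI, ⟨hξ.1.le, hξ.2.le.trans hs1⟩⟩
    rw [Prod.dist_eq]
    refine max_lt h3 ?_
    simp only [Real.dist_eq, sub_zero]
    rw [abs_of_pos hξ.1]
    linarith [hξ.2]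
  rw [he, div_pos_iff] at h4
  have h5 : 0 < G (X s) s - G (X s) 0 := by
    rcases h4 with h4 | h4
    · exact h4.1
    · linarith [h4.2]
  have h6 := hmin (X s) (hX s hsI)
  have h7 := hmax s hsI
  linarith

theorem t_SAD : S_SAD := by
  intro F Fx Fy Ft hFx hFy hFt cF cFx cFy cFt hmono hxs hys hper
  -- the zero
  have hex : ∀ y t : ℝ, ∃ x : ℝ, y ∈ Icc (-1 : ℝ) 1 → x ∈ Ioo (-1 : ℝ) 1 ∧ Fx x y t = 0 := by
    intro y t
    by_cases hy : y ∈ Icc (-1 : ℝ) 1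
    · have hc : ContinuousOn (fun x => Fx x y t) (Icc (-1) 1) :=
        cFx.comp (f := fun x => (x, y, t)) (by fun_prop) (fun x hx => ⟨hx, hy, mem_univ _⟩)
      have h := intermediate_value_Ioo (by norm_num : (-1 : ℝ) ≤ 1) hc
      have h2 : (0 : ℝ) ∈ Ioo (Fx (-1) y t) (Fx 1 y t) := hxs y hy t
      obtain ⟨x, hx, hx0⟩ := h h2
      exact ⟨x, fun _ => ⟨hx, hx0⟩⟩
    · exact ⟨0, fun h => absurd h hy⟩
  choose X hX using hex
  have hXI : ∀ y ∈ Icc (-1 : ℝ) 1, ∀ t, X y t ∈ Ioo (-1 : ℝ) 1 := fun y hy t => (hX y t hy).1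
  have hXc' : ∀ y ∈ Icc (-1 : ℝ) 1, ∀ t, X y t ∈ Icc (-1 : ℝ) 1 :=
    fun y hy t => Ioo_subset_Icc_self (hXI y hy t)
  have hX0 : ∀ y ∈ Icc (-1 : ℝ) 1, ∀ t, Fx (X y t) y t = 0 := fun y hy t => (hX y t hy).2
  have hmin : ∀ y ∈ Icc (-1 : ℝ) 1, ∀ t, ∀ x ∈ Icc (-1 : ℝ) 1, F (X y t) y t ≤ F x y t := by
    intro y hy t
    exact sad_min (fun x => F x y t) (fun x => Fx x y t) (fun x hx => hFx x hx y hy t)
      (hmono y hy t) (X y t) (hXc' y hy t) (hX0 y hy t)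
  have hXc : ContinuousOn (fun z : ℝ × ℝ => X z.1 z.2) (Icc (-1) 1 ×ˢ univ) := by
    refine sad_cont (Icc (-1) 1 ×ˢ univ) (fun x z => Fx x z.1 z.2) (fun z => X z.1 z.2) cFx ?_ ?_ ?_
    · rintro ⟨y, t⟩ ⟨hy, -⟩
      exact hmono y hy t
    · rintro ⟨y, t⟩ ⟨hy, -⟩
      exact hXI y hy t
    · rintro ⟨y, t⟩ ⟨hy, -⟩
      exact hX0 y hy t
  have hmc : ContinuousOn (fun z : ℝ × ℝ => F (X z.1 z.2) z.1 z.2) (Icc (-1) 1 ×ˢ univ) := by
    refine cF.comp (f := fun z : ℝ × ℝ => (X z.1 z.2, z.1, z.2)) ?_ ?_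
    · exact hXc.prodMk (by fun_prop)
    · rintro ⟨y, t⟩ ⟨hy, -⟩
      exact ⟨hXc' y hy t, hy, mem_univ _⟩
  have hK : IsCompact ((Icc (-1 : ℝ) 1) ×ˢ (Icc (0 : ℝ) (2 * Real.pi))) :=
    isCompact_Icc.prod isCompact_Icc
  have hpi : 0 < 2 * Real.pi := by positivity
  obtain ⟨⟨y0, t0⟩, ⟨hy0, ht0⟩, hmax0⟩ := hK.exists_isMaxOn
    ⟨(0, 0), ⟨by norm_num, by norm_num⟩, ⟨le_rfl, hpi.le⟩⟩
    (hmc.mono (prod_mono_right (subset_univ _)))
  have hy0 : y0 ∈ Icc (-1 : ℝ) 1 := hy0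
  have hmper : ∀ y ∈ Icc (-1 : ℝ) 1, Function.Periodic (fun t => F (X y t) y t) (2 * Real.pi) := by
    intro y hy t
    apply le_antisymm
    · have h1 := hmin y hy (t + 2 * Real.pi) (X y t) (hXc' y hy t)
      rw [hper (X y t)] at h1
      exact h1
    · have h1 := hmin y hy t (X y (t + 2 * Real.pi)) (hXc' y hy _)
      rw [← hper (X y (t + 2 * Real.pi)) y t] at h1
      exact h1
  have hmax : ∀ y ∈ Icc (-1 : ℝ) 1, ∀ t, F (X y t) y t ≤ F (X y0 t0) y0 t0 := by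
    intro y hy t
    obtain ⟨t', ht', he⟩ := (hmper y hy).exists_mem_Ico₀ hpi t

    rw [he]
    exact hmax0 (show (y, t') ∈ _ from ⟨hy, ht'.1, ht'.2.le⟩)
  -- envelope in direction y
  have henvy : ∀ y1 ∈ Icc (-1 : ℝ) 1, (y1 - y0) * Fy (X y0 t0) y0 t0 ≤ 0 := by
    intro y1 hy1
    have hI : ∀ s ∈ Icc (0 : ℝ) 1, y0 + s * (y1 - y0) ∈ Icc (-1 : ℝ) 1 := by
      intro s hs
      have := (convex_Icc (-1 : ℝ) 1).add_smul_sub_mem hy0 hy1 hs
      simpa [smul_eq_mul] using this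
    have h := sad_env (fun x s => F x (y0 + s * (y1 - y0)) t0)
      (fun x s => (y1 - y0) * Fy x (y0 + s * (y1 - y0)) t0)
      (fun s => X (y0 + s * (y1 - y0)) t0)
      (fun s hs => hXc' _ (hI s hs) _)
      (hXc.comp (f := fun s : ℝ => (y0 + s * (y1 - y0), t0)) (by fun_prop)
        (fun s hs => ⟨hI s hs, mem_univ _⟩))
      (by
        intro x hx s hs
        have h1 := hFy x hx _ (hI s hs) t0
        have h2 : HasDerivAt (fun s : ℝ => y0 + s * (y1 - y0)) (y1 - y0) s := by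
          simpa using ((hasDerivAt_id s).mul_const (y1 - y0)).const_add y0
        have h3 := HasDerivAt.comp s h1 h2
        rw [mul_comm] at h3
        exact h3)
      (by
        refine ContinuousOn.mul continuousOn_const ?_
        exact cFy.comp (f := fun p : ℝ × ℝ => (p.1, y0 + p.2 * (y1 - y0), t0)) (by fun_prop)
          (fun p hp => ⟨hp.1, hI _ hp.2, mem_univ _⟩))
      (by
        intro x hx
        simp only [zero_mul, add_zero]
        exact hmin y0 hy0 t0 x hx)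
      (by
        intro s hs
        simp only [zero_mul, add_zero]
        exact hmax _ (hI s hs) t0)
    simpa only [zero_mul, add_zero] using h
  have henvt : ∀ σ : ℝ, σ * Ft (X y0 t0) y0 t0 ≤ 0 := by
    intro σ
    have h := sad_env (fun x s => F x y0 (t0 + s * σ))
      (fun x s => σ * Ft x y0 (t0 + s * σ))
      (fun s => X y0 (t0 + s * σ))
      (fun s hs => hXc' _ hy0 _)
      (hXc.comp (f := fun s : ℝ => (y0, t0 + s * σ)) (by fun_prop)
        (fun s hs => ⟨hy0, mem_univ _⟩))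
      (by
        intro x hx s hs
        have h1 := hFt x hx _ hy0 (t0 + s * σ)
        have h2 : HasDerivAt (fun s : ℝ => t0 + s * σ) σ s := by
          simpa using ((hasDerivAt_id s).mul_const σ).const_add t0
        have h3 := HasDerivAt.comp s h1 h2
        rw [mul_comm] at h3
        exact h3)
      (by
        refine ContinuousOn.mul continuousOn_const ?_
        exact cFt.comp (f := fun p : ℝ × ℝ => (p.1, y0, t0 + p.2 * σ)) (by fun_prop)
          (fun p hp => ⟨hp.1, hy0, mem_univ _⟩))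
      (by
        intro x hx
        simp only [zero_mul, add_zero]
        exact hmin y0 hy0 t0 x hx)
      (by
        intro s hs
        simp only [zero_mul, add_zero]
        exact hmax _ hy0 _)
    simpa only [zero_mul, add_zero] using h
  have e1 := henvy 1 ⟨by norm_num, le_rfl⟩
  have e2 := henvy (-1) ⟨le_rfl, by norm_num⟩
  have hxI := hXc' y0 hy0 t0
  have hy1 : y0 ≠ -1 := by
    intro h
    rw [h] at e1
    have h1 := (hys (X (-1) t0) (hXc' (-1) (by norm_num) t0) t0).1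
    linarith
  have hy2 : y0 ≠ 1 := by
    intro h
    rw [h] at e2
    have h1 := (hys (X 1 t0) (hXc' 1 (by norm_num) t0) t0).2
    linarith
  have hyl : -1 < y0 := lt_of_le_of_ne hy0.1 (Ne.symm hy1)
  have hyr : y0 < 1 := lt_of_le_of_ne hy0.2 hy2
  refine ⟨X y0 t0, hXI y0 hy0 t0, y0, ⟨hyl, hyr⟩, t0, hX0 y0 hy0 t0, ?_, ?_⟩
  · have a1 : Fy (X y0 t0) y0 t0 ≤ 0 := by
      by_contra hc
      push Not at hc
      have := mul_pos (sub_pos.mpr hyr) hc
      linarith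
    have a2 : 0 ≤ Fy (X y0 t0) y0 t0 := by
      by_contra hc
      push Not at hc
      have := mul_pos_of_neg_of_neg (sub_neg.mpr hyl) hc
      linarith
    linarith
  · have b1 := henvt 1
    have b2 := henvt (-1)
    linarith

end Pool.Agent.D0H70.BF
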