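import Pool.Agent.D0H95.BF.Stm3

set_option autoImplicit false

/-! Module UNI of project BF (helper95). -/

open Filter Topology Set
open Pool.Agent.D0H95.BF

namespace Pool.Agent.D0H70.BF

theorem t_UNI : S_UNI := by
  intro F hF
  have key : ∀ s : Set ℝ, IsCompact s →
      ∃ C δ : ℝ, 0 < δ ∧ ∀ e, |e| < δ → ∀ u ∈ s, ‖F (e, u) - F (0, u)‖ ≤ C * |e| := by
    intro s hs
    refine hs.induction_on (p := fun s => ∃ C δ : ℝ, 0 < δ ∧ ∀ e, |e| < δ → ∀ u ∈ s,
      ‖F (e, u) - F (0, u)‖ ≤ C * |e|) ?_ ?_ ?_ ?_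
    · exact ⟨0, 1, one_pos, fun e _ u hu => absurd hu (notMem_empty u)⟩
    · rintro s t hst ⟨C, δ, hδ, h⟩
      exact ⟨C, δ, hδ, fun e he u hu => h e he u (hst hu)⟩
    · rintro s t ⟨C, δ, hδ, h⟩ ⟨C', δ', hδ', h'⟩
      refine ⟨max C C', min δ δ', lt_min hδ hδ', fun e he u hu => ?_⟩
      rcases hu with hu | hu
      · exact (h e (he.trans_le (min_le_left _ _)) u hu).trans
          (mul_le_mul_of_nonneg_right (le_max_left _ _) (abs_nonneg _))
      · exact (h' e (he.trans_le (min_le_right _ _)) u hu).trans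
          (mul_le_mul_of_nonneg_right (le_max_right _ _) (abs_nonneg _))
    · intro u₀ _
      obtain ⟨K, t, ht, hK⟩ := (hF u₀).exists_lipschitzOnWith
      rw [Metric.mem_nhds_iff] at ht
      obtain ⟨δ, hδ, hball⟩ := ht
      refine ⟨Metric.ball u₀ δ, mem_nhdsWithin_of_mem_nhds (Metric.ball_mem_nhds u₀ hδ), K, δ, hδ,
        fun e he u hu => ?_⟩
      have hd : dist u u₀ < δ := hu
      have h1 : ((e, u) : ℝ × ℝ) ∈ t := hball (by
        rw [Metric.mem_ball, Prod.dist_eq]
        refine max_lt ?_ hd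
        rw [Real.dist_eq]
        simpa using he)
      have h2 : ((0, u) : ℝ × ℝ) ∈ t := hball (by
        rw [Metric.mem_ball, Prod.dist_eq]
        refine max_lt ?_ hd
        simpa using hδ)
      have h3 := hK.dist_le_mul _ h1 _ h2
      rw [dist_eq_norm] at h3
      have h4 : dist ((e, u) : ℝ × ℝ) (0, u) = |e| := by
        rw [Prod.dist_eq, Real.dist_eq]
        simp
      rw [h4] at h3
      exact h3
  exact key _ isCompact_Icc

end Pool.Agent.D0H70.BF
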